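import Mathlib
set_option autoImplicit false

/-! # MP_5269d5_an: spectra of `μ_{p,q}` with prescribed upper `s`-Beurling density. Statements. -/

open MeasureTheory Filter Topology Finset
open scoped ENNReal

namespace Pool.Agent.Q167.BD

/-- `{e^{2πiλx}}_{λ ∈ Λ}` is an orthonormal basis of `L²(μ)` -/
def IsSpectrum (μ : Measure ℝ) (Λ : Set ℝ) : Prop :=
  Λ.Countable ∧ ∃ b : HilbertBasis Λ ℂ (Lp ℂ 2 μ),
    ∀ l : Λ, (b l : ℝ → ℂ) =ᵐ[μ] fun x => Complex.exp (2 * Real.pi * (l : ℝ) * x * Complex.I)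

/-- `μ = (1/q) ∑_{d ∈ (p/q){0,...,q-1}} μ ∘ f_d⁻¹`, `f_d(x) = (x + d) / p` -/
def SelfSim (p q : ℕ) (μ : Measure ℝ) : Prop :=
  μ = (q : ℝ≥0∞)⁻¹ • ∑ j ∈ range q, μ.map (fun x : ℝ => (x + (p : ℝ) / q * j) / p)

/-- the upper `r`-Beurling density -/
noncomputable def upperDensity (r : ℝ) (Λ : Set ℝ) : ℝ≥0∞ :=
  limsup (fun h : ℝ => ⨆ x : ℝ, ((Λ ∩ Set.Ioo (x - h) (x + h)).encard : ℝ≥0∞) /
    ENNReal.ofReal (h ^ r)) atTop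

/-- admissible parameters -/
structure Adm (p q : ℕ) : Prop where
  two : 2 ≤ q
  dvd : q ∣ p
  lt : q < p

/-! ### Fourier side -/

noncomputable def G (q : ℕ) (x : ℝ) : ℝ :=
  ‖(1 / (q : ℂ)) * ∑ j ∈ range q, Complex.exp (2 * Real.pi * j * x * Complex.I)‖ ^ 2

noncomputable def hh (p q n : ℕ) (ξ : ℝ) : ℝ := ∏ k ∈ range n, G q (ξ / (q * (p : ℝ) ^ k))

structure IsH (p q : ℕ) (H : ℝ → ℝ) : Prop where
  cont : Continuous H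
  zero : H 0 = 1
  nonneg : ∀ x, 0 ≤ H x
  le_one : ∀ x, H x ≤ 1
  eq : ∀ x, H x = G q (x / q) * H (x / p)

/-- sum over a full set of residues -/
def TaskGSum : Prop := ∀ (q : ℕ), 1 ≤ q → ∀ x : ℝ, ∑ a ∈ range q, G q (x + (a : ℝ) / q) = 1

def TaskGBasic : Prop := ∀ (q : ℕ), 1 ≤ q →
  (∀ x, 0 ≤ G q x) ∧ (∀ x, G q x ≤ 1) ∧ (∀ (x : ℝ) (m : ℤ), G q (x + m) = G q x) ∧
    (∀ x : ℝ, |x| < 1 / q → 0 < G q x)

def TaskChar : Prop := ∀ (p q : ℕ), Adm p q → ∀ (μ : Measure ℝ) [IsProbabilityMeasure μ],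
  SelfSim p q μ → IsH p q (fun x => ‖charFun μ (2 * Real.pi * x)‖ ^ 2)

def TaskHprod : Prop := ∀ (p q : ℕ), Adm p q → ∀ H, IsH p q H →
  ∀ (n : ℕ) (x : ℝ), H x = hh p q n x * H (x / (p : ℝ) ^ n)

/-- use TaskHprod -/
def TaskHlim : Prop := ∀ (p q : ℕ), Adm p q → ∀ H, IsH p q H →
  ∀ x : ℝ, Tendsto (fun n => hh p q n x) atTop (𝓝 (H x))

/-- use TaskHprod, TaskGBasic, compactness of `[-3/4, 3/4]` -/
def TaskHlow : Prop := ∀ (p q : ℕ), Adm p q → ∀ H, IsH p q H →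
  ∃ c : ℝ, 0 < c ∧ ∀ x : ℝ, |x| ≤ 3 / 4 → c ≤ H x

/-- use TaskGBasic -/
def TaskPer : Prop := ∀ (p q : ℕ), Adm p q → ∀ (n m : ℕ) (z : ℤ) (x : ℝ), n ≤ m + 1 →
  hh p q n (x + q * (p : ℝ) ^ m * z) = hh p q n x

/-- labels of the tree -/
structure Labels (p q : ℕ) (τ : ℕ → ℕ → ℕ) : Prop where
  dep : ∀ N i, τ N i = τ (N % q ^ (i + 1)) i
  cong : ∀ N i, τ N i % q = N / q ^ i % q
  le : ∀ N i, τ N i ≤ q
  far : ∀ n N i j, N < q ^ n → n ≤ i → n ≤ j → τ N i ≠ 0 → τ N j ≠ 0 → i = j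
  fin : ∀ N i, N ^ 2 < i → τ N i = 0

def trunc (p : ℕ) (τ : ℕ → ℕ → ℕ) (n N : ℕ) : ℕ := ∑ i ∈ range n, τ N i * p ^ i

def val (p : ℕ) (τ : ℕ → ℕ → ℕ) (N : ℕ) : ℕ := trunc p τ (N ^ 2 + 1) N

/-- induction on `n`; `N = N₀ + a q^n`; use TaskGSum, TaskGBasic, TaskPer -/
def TaskSumTrunc : Prop := ∀ (p q : ℕ), Adm p q → ∀ τ, Labels p q τ → ∀ (n : ℕ) (x : ℝ),
  ∑ N ∈ range (q ^ n), hh p q n (x + trunc p τ n N) = 1

/-- the tail of a label sequence: nothing, or one digit `q` at a position `j ≥ n` -/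
def TaskTail : Prop := ∀ (p q : ℕ), Adm p q → ∀ τ, Labels p q τ → ∀ (n N : ℕ), N < q ^ n →
  val p τ N = trunc p τ n N ∨ ∃ j, n ≤ j ∧ val p τ N = trunc p τ n N + q * p ^ j

/-- `trunc < (3/4) p^n` up to a small error; `q/(p-1) ≤ 2/3` -/
def TaskTruncLe : Prop := ∀ (p q : ℕ), Adm p q → ∀ τ, Labels p q τ → ∀ (n N : ℕ),
  3 * trunc p τ n N ≤ 2 * p ^ n

/-- use TaskTail, TaskTruncLe, TaskHprod, TaskHlow, TaskPer, TaskHlim (or `hh n ≥ H` from TaskHprod) -/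
def TaskLow : Prop := ∀ (p q : ℕ), Adm p q → ∀ H, IsH p q H → ∀ τ, Labels p q τ →
  ∃ c : ℝ, 0 < c ∧ ∀ x : ℝ, ∀ᶠ n : ℕ in atTop, ∀ N < q ^ n,
    c * hh p q n (x + val p τ N) ≤ H (x + val p τ N)

/-- use TaskSumTrunc, TaskTail, TaskPer, TaskLow, TaskHlim, TaskHprod and dominated convergence
(`tendsto_tsum_of_dominated_convergence`); model: `spec_lam` in Pool/Agent/Q167/CN/Spec.lean -/
def TaskSpec : Prop := ∀ (p q : ℕ), Adm p q → ∀ H, IsH p q H → ∀ τ, Labels p q τ → ∀ x : ℝ,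
  ∑' N : ℕ, ENNReal.ofReal (H (x + val p τ N)) = 1

/-- model: `exists_basis` in Pool/Agent/Q167/CN/L2.lean (there with `e^{-2πilx}`) -/
def TaskBasis : Prop := ∀ (μ : Measure ℝ) [IsProbabilityMeasure μ] (L : Set ℝ),
  (∀ ξ : ℝ, ∑' l : L, ENNReal.ofReal (‖charFun μ (2 * Real.pi * (ξ + l))‖ ^ 2) = 1) →
    ∃ b : HilbertBasis L ℂ (Lp ℂ 2 μ),
      ∀ l : L, (b l : ℝ → ℂ) =ᵐ[μ] fun x => Complex.exp (2 * Real.pi * (l : ℝ) * x * Complex.I)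

/-! ### Density side -/

/-- the digit map: base `q` digits of `N` read in base `p` -/
def lam (p q N : ℕ) : ℕ := ∑ i ∈ range (N + 1), (N / q ^ i % q) * p ^ i

def TaskLamRec : Prop := ∀ (p q : ℕ), Adm p q → ∀ N c : ℕ, c < q →
  lam p q (q * N + c) = p * lam p q N + c

/-- `κ = (q-1)/(p-1)`, `β = log p / log q` -/
noncomputable def kap (p q : ℕ) : ℝ := ((q : ℝ) - 1) / ((p : ℝ) - 1)
noncomputable def bet (p q : ℕ) : ℝ := Real.log p / Real.log q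
noncomputable def ss (p q : ℕ) : ℝ := Real.log q / Real.log p

/-- `d = qδ = q - 1 - e`, `m = 1` forces `d ≤ q - 1`; concavity of `x ↦ m^β - (m - x)^β` -/
def TaskAna : Prop := ∀ (p q : ℕ), Adm p q → ∀ m d : ℕ, 1 ≤ m → d ≤ 2 * (q - 1) →
  (m = 1 → d ≤ q - 1) →
  (d : ℝ) ≤ p * kap p q * ((m : ℝ) ^ bet p q - ((m : ℝ) - d / q) ^ bet p q)

/-- induction on `b` (or on the number of digits): `a = qA + c`, `b = qB + c'`, `m = B - A + 1`,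
`b - a + 1 = q m - (q - 1 - (c' - c))`; use TaskLamRec, TaskAna -/
def TaskGap : Prop := ∀ (p q : ℕ), Adm p q → ∀ a b : ℕ, a ≤ b →
  kap p q * (((b : ℝ) - a + 1) ^ bet p q - 1) ≤ (lam p q b : ℝ) - lam p q a

/-- use TaskGap -/
def TaskWindow : Prop := ∀ (p q : ℕ), Adm p q → ∀ (a b : ℕ) (w : ℝ), a ≤ b → 0 ≤ w →
  (lam p q b : ℝ) - lam p q a ≤ w → (b : ℝ) - a + 1 ≤ (1 + w / kap p q) ^ ss p q

/-- `λ_N` is strictly increasing, and `λ_N ≤ κ (p^n - 1)` for `N < q^n`; use TaskLamRec -/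
def TaskLamMono : Prop := ∀ (p q : ℕ), Adm p q → StrictMono (lam p q) ∧
  ∀ n N : ℕ, N < q ^ n → (lam p q N : ℝ) ≤ kap p q * ((p : ℝ) ^ n - 1)

/-- the retained indices -/
def Rt (θ : ℝ) : Set ℕ := {N | ⌊θ * (N + 1)⌋ ≠ ⌊θ * N⌋}

def TaskBeatty : Prop := ∀ θ : ℝ, 0 ≤ θ → θ ≤ 1 →
  (∀ a b : ℕ, a ≤ b → (((Rt θ) ∩ Set.Icc a b).ncard : ℝ) ≤ θ * ((b : ℝ) - a + 1) + 1) ∧
  (∀ n : ℕ, θ * n - 1 ≤ (((Rt θ) ∩ Set.Iio n).ncard : ℝ))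

open Classical in
/-- the labels: the extra digit `q` is put at position `i = N'²` above the prefix `N' ∉ R` -/
noncomputable def tau (q : ℕ) (R : Set ℕ) (N i : ℕ) : ℕ :=
  if (N % q ^ (i + 1)) ^ 2 = i ∧ N % q ^ (i + 1) ∉ R then q else N / q ^ i % q

def TaskLabels : Prop := ∀ (p q : ℕ), Adm p q → ∀ R : Set ℕ, Labels p q (tau q R)

/-- digit extraction -/
def TaskDigit : Prop := ∀ (p q : ℕ), Adm p q → ∀ τ, Labels p q τ → ∀ N i : ℕ,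
  val p τ N / p ^ i % p = τ N i

/-- use TaskDigit, TaskLabels: for all `i ≥ k` the labels agree, in particular the special one -/
def TaskInjS : Prop := ∀ (p q : ℕ), Adm p q → ∀ (R : Set ℕ) (k N₁ N₂ m : ℕ), k ≤ m →
  tau q R N₁ m = q → val p (tau q R) N₁ / p ^ k = val p (tau q R) N₂ / p ^ k → N₁ = N₂

/-- no special position `≥ k` -/
def TaskNotS : Prop := ∀ (p q : ℕ), Adm p q → ∀ (R : Set ℕ) (k N : ℕ),
  (∀ m, k ≤ m → tau q R N m ≠ q) →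
  lam p q N ≤ val p (tau q R) N ∧ val p (tau q R) N ≤ lam p q N + p ^ k

/-- split into the `N` with a special position `≥ k` (TaskInjS: at most `2h/p^k + 2`), the `N ∉ R`
without (then `N² < k`, at most `k`), the `N ∈ R` without (TaskNotS, TaskWindow, TaskBeatty, TaskLamMono) -/
def TaskUpper : Prop := ∀ (p q : ℕ), Adm p q → ∀ θ : ℝ, 0 ≤ θ → θ ≤ 1 → ∀ (k : ℕ) (x h : ℝ), 0 < h →
  {N : ℕ | (val p (tau q (Rt θ)) N : ℝ) ∈ Set.Ioo (x - h) (x + h)}.Finite ∧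
  ({N : ℕ | (val p (tau q (Rt θ)) N : ℝ) ∈ Set.Ioo (x - h) (x + h)}.ncard : ℝ) ≤
    (2 * h / (p : ℝ) ^ k + 2) + k + (θ * (1 + (2 * h + (p : ℝ) ^ k) / kap p q) ^ ss p q + 1)

/-- `N ∈ R`, `N < q^(J²)` has its special positions at `i ≤ (J-1)²`; TaskNotS, TaskLamMono, TaskBeatty -/
def TaskLower : Prop := ∀ (p q : ℕ), Adm p q → ∀ θ : ℝ, 0 ≤ θ → θ ≤ 1 → ∀ J : ℕ, 1 ≤ J →
  ∃ x : ℝ, θ * (q : ℝ) ^ (J ^ 2) - 1 ≤
    ({N : ℕ | (val p (tau q (Rt θ)) N : ℝ) ∈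
      Set.Ioo (x - (kap p q * (p : ℝ) ^ (J ^ 2) / 2 + (p : ℝ) ^ ((J - 1) ^ 2 + 1)))
        (x + (kap p q * (p : ℝ) ^ (J ^ 2) / 2 + (p : ℝ) ^ ((J - 1) ^ 2 + 1)))}.ncard : ℝ)

/-- choose `k = k(h)` with `p^k ≤ h^(1-s/2) < p^(k+1)` -/
def TaskLimUp : Prop := ∀ (p q : ℕ), Adm p q → ∀ θ : ℝ, 0 ≤ θ → θ ≤ 1 →
  ∀ ε : ℝ, 0 < ε → ∀ᶠ h : ℝ in atTop, ∃ k : ℕ,
    (2 * h / (p : ℝ) ^ k + 2) + k + (θ * (1 + (2 * h + (p : ℝ) ^ k) / kap p q) ^ ss p q + 1) ≤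
      (θ * (2 * ((p : ℝ) - 1) / ((q : ℝ) - 1)) ^ ss p q + ε) * h ^ ss p q

def TaskLimLow : Prop := ∀ (p q : ℕ), Adm p q → ∀ θ : ℝ, 0 ≤ θ → θ ≤ 1 →
  ∀ ε : ℝ, 0 < ε → ∀ᶠ J : ℕ in atTop,
    (θ * (2 * ((p : ℝ) - 1) / ((q : ℝ) - 1)) ^ ss p q - ε) *
      (kap p q * (p : ℝ) ^ (J ^ 2) / 2 + (p : ℝ) ^ ((J - 1) ^ 2 + 1)) ^ ss p q ≤
      θ * (q : ℝ) ^ (J ^ 2) - 1

/-- from the counts to the density, for an injective sequence of reals; use the statements above as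
hypotheses `hup`, `hlow` -/
def TaskDens : Prop := ∀ (s D : ℝ) (f : ℕ → ℝ), 0 < s → 0 ≤ D → Function.Injective f →
  (∀ ε : ℝ, 0 < ε → ∀ᶠ h : ℝ in atTop, ∀ x : ℝ, {N : ℕ | f N ∈ Set.Ioo (x - h) (x + h)}.Finite ∧
    ({N : ℕ | f N ∈ Set.Ioo (x - h) (x + h)}.ncard : ℝ) ≤ (D + ε) * h ^ s) →
  (∀ ε : ℝ, 0 < ε → ∃ᶠ h : ℝ in atTop, ∃ x : ℝ,
    (D - ε) * h ^ s ≤ ({N : ℕ | f N ∈ Set.Ioo (x - h) (x + h)}.ncard : ℝ)) →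
  upperDensity s (Set.range f) = ENNReal.ofReal D

/-- the answer -/
def Main : Prop := ∀ (p q : ℕ), 2 ≤ q → q ∣ p → q < p →
  ∀ (μ : Measure ℝ) [IsProbabilityMeasure μ], SelfSim p q μ →
  ∀ d : ℝ, 0 ≤ d → d ≤ (2 * ((p : ℝ) - 1) / ((q : ℝ) - 1)) ^ (Real.log q / Real.log p) →
    ∃ Λ : Set ℝ, IsSpectrum μ Λ ∧ upperDensity (Real.log q / Real.log p) Λ = ENNReal.ofReal d

end Pool.Agent.Q167.BD
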