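import Mathlib
import Pool.Agent.Q167.BD.Stmts
set_option autoImplicit false

/-! # MP_5269d5_an: assembly -/

open MeasureTheory Filter Topology Finset
open scoped ENNReal

namespace Pool.Agent.Q167.BD

theorem inj_of_sum {H : ℝ → ℝ} (h0 : H 0 = 1) {f : ℕ → ℝ}
    (hs : ∀ x : ℝ, ∑' N : ℕ, ENNReal.ofReal (H (x + f N)) = 1) : Function.Injective f := by
  classical
  intro i j hij
  by_contra hne
  have h1 := hs (-(f i))
  have h2 : ∑ k ∈ ({i, j} : Finset ℕ), ENNReal.ofReal (H (-(f i) + f k)) ≤ 1 := by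
    rw [← h1]
    exact ENNReal.sum_le_tsum _
  rw [Finset.sum_pair hne, ← hij, neg_add_cancel, h0] at h2
  norm_num at h2

theorem main_of (hChar : TaskChar) (hSpec : TaskSpec) (hBasis : TaskBasis) (hLab : TaskLabels)
    (hUp : TaskUpper) (hLow : TaskLower) (hLU : TaskLimUp) (hLL : TaskLimLow) (hDens : TaskDens) :
    Main := by
  intro p q h2 hdv hlt μ _ hμ d hd0 hdM
  have hA : Adm p q := ⟨h2, hdv, hlt⟩
  have hq1 : (1 : ℝ) < q := by exact_mod_cast (by omega : 1 < q)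
  have hp1 : (1 : ℝ) < p := by exact_mod_cast (by omega : 1 < p)
  have hlq : 0 < Real.log q := Real.log_pos hq1
  have hlp : 0 < Real.log p := Real.log_pos hp1
  have hs : 0 < ss p q := div_pos hlq hlp
  set M : ℝ := (2 * ((p : ℝ) - 1) / ((q : ℝ) - 1)) ^ ss p q with hM
  have hM0 : 0 < M := by
    apply Real.rpow_pos_of_pos
    apply div_pos
    · linarith
    · linarith
  have hdM' : d ≤ M := hdM
  set θ : ℝ := d / M with hθ
  have hθ0 : 0 ≤ θ := div_nonneg hd0 hM0.le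
  have hθ1 : θ ≤ 1 := (div_le_one hM0).2 hdM'
  have hθM : θ * M = d := div_mul_cancel₀ _ hM0.ne'
  have hH := hChar p q hA μ hμ
  have hτ := hLab p q hA (Rt θ)
  set f : ℕ → ℝ := fun N => (val p (tau q (Rt θ)) N : ℝ) with hf
  have hsum : ∀ x : ℝ, ∑' N : ℕ, ENNReal.ofReal (‖charFun μ (2 * Real.pi * (x + f N))‖ ^ 2) = 1 :=
    fun x => hSpec p q hA _ hH _ hτ x
  have hinj : Function.Injective f :=
    inj_of_sum (H := fun x => ‖charFun μ (2 * Real.pi * x)‖ ^ 2) hH.zero hsum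
  refine ⟨Set.range f, ⟨Set.countable_range f, hBasis μ (Set.range f) ?_⟩, ?_⟩
  · intro ξ
    rw [tsum_range (f := fun l : ℝ => ENNReal.ofReal (‖charFun μ (2 * Real.pi * (ξ + l))‖ ^ 2)) hinj]
    exact hsum ξ
  · refine hDens (ss p q) d f hs hd0 hinj ?_ ?_
    · intro ε hε
      filter_upwards [hLU p q hA θ hθ0 hθ1 ε hε, eventually_gt_atTop 0] with h hh hh0 x
      obtain ⟨k, hk⟩ := hh
      obtain ⟨h1, h3⟩ := hUp p q hA θ hθ0 hθ1 k x h hh0
      rw [← hM, hθM] at hk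
      exact ⟨h1, h3.trans hk⟩
    · intro ε hε
      have h1 := hLL p q hA θ hθ0 hθ1 ε hε
      rw [← hM, hθM] at h1
      rw [frequently_atTop]
      intro a
      have hkap : 0 < kap p q := div_pos (by linarith) (by linarith)
      have htend : Tendsto (fun J : ℕ => kap p q * (p : ℝ) ^ (J ^ 2) / 2 +
          (p : ℝ) ^ ((J - 1) ^ 2 + 1)) atTop atTop := by
        have h4 : Tendsto (fun J : ℕ => (p : ℝ) ^ (J ^ 2)) atTop atTop :=
          (tendsto_pow_atTop_atTop_of_one_lt hp1).comp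
            (tendsto_pow_atTop (by norm_num))
        have h5 : Tendsto (fun J : ℕ => kap p q * (p : ℝ) ^ (J ^ 2) / 2) atTop atTop :=
          (h4.const_mul_atTop hkap).atTop_div_const (by norm_num)
        refine tendsto_atTop_mono (fun J => ?_) h5
        have : (0 : ℝ) ≤ (p : ℝ) ^ ((J - 1) ^ 2 + 1) := by positivity
        linarith
      obtain ⟨J, ⟨hJ1, hJ2⟩, hJ3⟩ :=
        ((h1.and (eventually_ge_atTop 1)).and (htend.eventually_ge_atTop a)).exists
      obtain ⟨x, hx⟩ := hLow p q hA θ hθ0 hθ1 J hJ2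
      exact ⟨_, hJ3, x, hJ1.trans hx⟩

end Pool.Agent.Q167.BD
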