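import Pool.Agent.Q167.BD.Stmts

set_option autoImplicit false

namespace Pool.Agent.Q167.BD.TaskAna

open Pool.Agent.Q167.BD

theorem main : Pool.Agent.Q167.BD.TaskAna := by
  intro p q hA m d hm hd hd1
  have hq2 : (2:ℝ) ≤ q := by exact_mod_cast hA.two
  have hq0 : (0:ℝ) < q := by linarith
  have hqp : (q:ℝ) < p := by exact_mod_cast hA.lt
  have hp0 : (0:ℝ) < p := by linarith
  have hlq : 0 < Real.log q := Real.log_pos (by linarith)
  have hlp : Real.log q < Real.log p := Real.log_lt_log hq0 hqp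
  have hβ1 : 1 ≤ bet p q := by
    unfold bet
    rw [le_div_iff₀ hlq]
    linarith
  have hqβ : (q:ℝ) ^ bet p q = p := by
    unfold bet
    rw [Real.rpow_def_of_pos hq0, mul_div_cancel₀ _ hlq.ne', Real.exp_log hp0]
  have hm1 : (1:ℝ) ≤ m := by exact_mod_cast hm
  have hm0 : (0:ℝ) < m := by linarith
  have hq1 : 1 ≤ q := by have := hA.two; omega
  have hdm : (d:ℝ) ≤ m * (q - 1) := by
    rcases Nat.lt_or_ge m 2 with h | h
    · have h1 : m = 1 := by omega
      have h2 := hd1 h1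
      have h3 : (d:ℝ) ≤ ((q - 1 : ℕ) : ℝ) := by exact_mod_cast h2
      rw [Nat.cast_sub hq1] at h3
      rw [h1]
      push_cast at h3 ⊢
      linarith
    · have h3 : (d:ℝ) ≤ ((2 * (q - 1) : ℕ) : ℝ) := by exact_mod_cast hd
      push_cast [Nat.cast_sub hq1] at h3
      have h4 : (2:ℝ) ≤ m := by exact_mod_cast h
      nlinarith
  have hmq : 0 < (m:ℝ) * (q - 1) := mul_pos hm0 (by linarith)
  obtain ⟨t, ht⟩ : ∃ t : ℝ, t = (d:ℝ) / (m * (q - 1)) := ⟨_, rfl⟩
  have ht0 : 0 ≤ t := by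
    rw [ht]
    exact div_nonneg (Nat.cast_nonneg d) hmq.le
  have ht1 : t ≤ 1 := by
    rw [ht, div_le_one hmq]
    exact hdm
  have hdt : (d:ℝ) = t * (m * (q - 1)) := by
    rw [ht, div_mul_cancel₀ _ hmq.ne']
  have hconv := convexOn_rpow hβ1
  have h1 := hconv.2 (show (m:ℝ) ∈ Set.Ici 0 from hm0.le)
    (show (m:ℝ)/q ∈ Set.Ici 0 from (div_pos hm0 hq0).le) (show 0 ≤ 1 - t by linarith) ht0 (by ring)
  have h2 : (1 - t) • (m:ℝ) + t • ((m:ℝ)/q) = m - d / q := by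
    simp only [smul_eq_mul]
    rw [hdt]
    field_simp
    ring
  rw [h2] at h1
  simp only [smul_eq_mul] at h1
  have h3 : ((m:ℝ)/q) ^ bet p q = (m:ℝ) ^ bet p q / p := by
    rw [Real.div_rpow hm0.le hq0.le, hqβ]
  rw [h3] at h1
  have hM : (m:ℝ) ≤ (m:ℝ) ^ bet p q := by
    calc (m:ℝ) = (m:ℝ)^(1:ℝ) := (Real.rpow_one _).symm
      _ ≤ (m:ℝ) ^ bet p q := Real.rpow_le_rpow_of_exponent_le hm1 hβ1
  have hp1 : (p:ℝ) - 1 ≠ 0 := by linarith
  have hk : 0 < p * kap p q := by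
    unfold kap
    exact mul_pos hp0 (div_pos (by linarith) (by linarith))
  calc (d:ℝ) = t * (m * (q - 1)) := hdt
    _ ≤ t * ((m:ℝ) ^ bet p q * (q - 1)) :=
        mul_le_mul_of_nonneg_left (mul_le_mul_of_nonneg_right hM (by linarith)) ht0
    _ = p * kap p q * (t * (m:ℝ) ^ bet p q - t * ((m:ℝ) ^ bet p q / p)) := by
        unfold kap
        field_simp
    _ ≤ _ := by
        apply mul_le_mul_of_nonneg_left _ hk.le
        linarith

end Pool.Agent.Q167.BD.TaskAna
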