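import Mathlib
import Pool.Agent.Q167.BD.Stmts
import Pool.Agent.Q167.CN.L2

set_option autoImplicit false

open MeasureTheory Filter Topology

namespace Pool.Agent.Q167.BD.TaskBasis

open Pool.Agent.Q167.CN

/-- the reflection -/
def ng (L : Set ℝ) : L ≃ {x : ℝ | -x ∈ L} where
  toFun l := ⟨-l.1, by simp⟩
  invFun l := ⟨-l.1, l.2⟩
  left_inv l := by simp
  right_inv l := by simp

theorem main : Pool.Agent.Q167.BD.TaskBasis := by
  intro μ _ L h
  obtain ⟨b, hb⟩ := exists_basis μ {x : ℝ | -x ∈ L} (fun ξ => by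
    rw [← h ξ, ← (ng L).tsum_eq]
    refine tsum_congr fun l => ?_
    have : (2 * Real.pi * (((ng L l : {x : ℝ | -x ∈ L}) : ℝ) - ξ)) = -(2 * Real.pi * (ξ + l)) := by
      change 2 * Real.pi * (-(l : ℝ) - ξ) = _
      ring
    rw [this, charFun_neg]
    simp)
  have ho : Orthonormal ℂ fun l : L => b (ng L l) := b.orthonormal.comp _ (ng L).injective
  have hspan : Set.range (fun l : L => b (ng L l)) = Set.range b := by
    ext x
    constructor
    · rintro ⟨l, rfl⟩
      exact ⟨_, rfl⟩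
    · rintro ⟨l, rfl⟩
      exact ⟨(ng L).symm l, by simp⟩
  refine ⟨HilbertBasis.mk ho (by rw [hspan, b.dense_span]), fun l => ?_⟩
  rw [HilbertBasis.coe_mk]
  filter_upwards [hb (ng L l)] with x hx
  rw [hx]
  unfold e
  congr 1
  change -(2 * (Real.pi : ℂ) * ((-(l : ℝ) : ℝ) : ℂ) * x) * Complex.I = _
  push_cast
  ring

end Pool.Agent.Q167.BD.TaskBasis
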