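import Pool.Agent.Q167.BD.Stmts

set_option autoImplicit false

open Finset

namespace Pool.Agent.Q167.BD.TaskBeatty

open Classical in
theorem step (θ : ℝ) (h0 : 0 ≤ θ) (h1 : θ ≤ 1) (N : ℕ) :
    ⌊θ * ((N + 1 : ℕ) : ℝ)⌋ = ⌊θ * (N : ℝ)⌋ + (if N ∈ Rt θ then (1 : ℤ) else 0) := by
  have hle : ⌊θ * (N : ℝ)⌋ ≤ ⌊θ * ((N : ℝ) + 1)⌋ := Int.floor_mono (by nlinarith)
  have hle2 : ⌊θ * ((N : ℝ) + 1)⌋ ≤ ⌊θ * (N : ℝ)⌋ + 1 := by
    have : ⌊θ * ((N : ℝ) + 1)⌋ ≤ ⌊θ * (N : ℝ) + 1⌋ := Int.floor_mono (by nlinarith)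
    rwa [Int.floor_add_one] at this
  push_cast
  split_ifs with h
  · have h' : ⌊θ * ((N : ℝ) + 1)⌋ ≠ ⌊θ * (N : ℝ)⌋ := h
    omega
  · have h' : ⌊θ * ((N : ℝ) + 1)⌋ = ⌊θ * (N : ℝ)⌋ := by
      by_contra hc
      exact h hc
    omega

open Classical in
theorem cnt (θ : ℝ) (h0 : 0 ≤ θ) (h1 : θ ≤ 1) (a n : ℕ) :
    (((Finset.Ico a (a + n)).filter (fun N => N ∈ Rt θ)).card : ℤ) =
      ⌊θ * ((a + n : ℕ) : ℝ)⌋ - ⌊θ * (a : ℝ)⌋ := by
  rw [Finset.card_filter]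
  push_cast
  induction n with
  | zero => simp
  | succ n ih =>
    rw [← Nat.add_assoc, Finset.sum_Ico_succ_top (Nat.le_add_right a n), ih]
    have h := step θ h0 h1 (a + n)
    push_cast at h ⊢
    rw [← add_assoc, h]
    ring

open Classical in
theorem main : Pool.Agent.Q167.BD.TaskBeatty := by
  intro θ h0 h1
  constructor
  · intro a b hab
    have hset : Rt θ ∩ Set.Icc a b =
        (((Finset.Ico a (a + (b + 1 - a))).filter (fun N => N ∈ Rt θ) : Finset ℕ) : Set ℕ) := by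
      ext N
      simp only [Set.mem_inter_iff, Set.mem_Icc, Finset.coe_filter, Finset.mem_Ico,
        Set.mem_setOf_eq]
      constructor
      · rintro ⟨h, h2, h3⟩
        exact ⟨⟨h2, by omega⟩, h⟩
      · rintro ⟨⟨h2, h3⟩, h⟩
        exact ⟨h, h2, by omega⟩
    rw [hset, Set.ncard_coe_finset]
    have h := cnt θ h0 h1 a (b + 1 - a)
    have h' : ((((Finset.Ico a (a + (b + 1 - a))).filter (fun N => N ∈ Rt θ)).card : ℕ) : ℝ) =
        (⌊θ * ((a + (b + 1 - a) : ℕ) : ℝ)⌋ : ℝ) - (⌊θ * (a : ℝ)⌋ : ℝ) := by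
      exact_mod_cast congrArg (fun z : ℤ => (z : ℝ)) h
    rw [h']
    have e : a + (b + 1 - a) = b + 1 := by omega
    rw [e]
    have h2 := Int.floor_le (θ * ((b + 1 : ℕ) : ℝ))
    have h3 := Int.lt_floor_add_one (θ * (a : ℝ))
    push_cast at h2 ⊢
    nlinarith
  · intro n
    have hset : Rt θ ∩ Set.Iio n =
        (((Finset.Ico 0 (0 + n)).filter (fun N => N ∈ Rt θ) : Finset ℕ) : Set ℕ) := by
      ext N
      simp only [Set.mem_inter_iff, Set.mem_Iio, Finset.coe_filter, Finset.mem_Ico,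
        Set.mem_setOf_eq]
      constructor
      · rintro ⟨h, h2⟩
        exact ⟨⟨Nat.zero_le _, by omega⟩, h⟩
      · rintro ⟨⟨h2, h3⟩, h⟩
        exact ⟨h, by omega⟩
    rw [hset, Set.ncard_coe_finset]
    have h := cnt θ h0 h1 0 n
    have h' : ((((Finset.Ico 0 (0 + n)).filter (fun N => N ∈ Rt θ)).card : ℕ) : ℝ) =
        (⌊θ * ((0 + n : ℕ) : ℝ)⌋ : ℝ) - (⌊θ * ((0 : ℕ) : ℝ)⌋ : ℝ) := by
      exact_mod_cast congrArg (fun z : ℤ => (z : ℝ)) h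
    rw [h']
    have h2 := Int.lt_floor_add_one (θ * (n : ℝ))
    simp only [zero_add, Nat.cast_zero, mul_zero, Int.floor_zero, Int.cast_zero, sub_zero]
    linarith

end Pool.Agent.Q167.BD.TaskBeatty
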