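import Pool.Agent.Q167.BD.Stmts
set_option autoImplicit false

/-! MP_5269d5_an: the Fourier transform of a self-similar measure. -/

open MeasureTheory Filter Topology Finset
open scoped ENNReal

namespace Pool.Agent.Q167.BD.TaskChar

open Pool.Agent.Q167.BD

theorem key (p q : ℕ) (h : Adm p q) (μ : Measure ℝ) [IsProbabilityMeasure μ]
    (hs : SelfSim p q μ) (x : ℝ) :
    charFun μ (2 * Real.pi * x) =
      ((1 / (q : ℂ)) * ∑ j ∈ range q, Complex.exp (2 * Real.pi * j * ((x / q : ℝ) : ℂ) * Complex.I)) *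
        charFun μ (2 * Real.pi * (x / p)) := by
  have h2 := h.two
  have hlt := h.lt
  have hq : (q : ℂ) ≠ 0 := by exact_mod_cast (by omega : q ≠ 0)
  have hp : (p : ℂ) ≠ 0 := by exact_mod_cast (by omega : p ≠ 0)
  have hb : ∀ t : ℝ, ‖Complex.exp ((t : ℂ) * Complex.I)‖ = 1 := Complex.norm_exp_ofReal_mul_I
  have hi : ∀ (t : ℝ) (ν : Measure ℝ) [IsFiniteMeasure ν],
      Integrable (fun y : ℝ => Complex.exp ((t : ℂ) * y * Complex.I)) ν := by
    intro t ν _
    refine Integrable.of_bound (Continuous.aestronglyMeasurable (by fun_prop)) 1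
      (ae_of_all _ fun y => ?_)
    have := hb (t * y)
    push_cast at this
    rw [this]
  have hs' : μ = (q : ℝ≥0∞)⁻¹ • ∑ j ∈ range q, μ.map (fun x : ℝ => (x + (p : ℝ) / q * j) / p) := hs
  rw [charFun_apply_real, charFun_apply_real]
  have e1 : ∫ y : ℝ, Complex.exp (((2 * Real.pi * x : ℝ) : ℂ) * y * Complex.I) ∂μ =
      ∫ y : ℝ, Complex.exp (((2 * Real.pi * x : ℝ) : ℂ) * y * Complex.I)
        ∂((q : ℝ≥0∞)⁻¹ • ∑ j ∈ range q, μ.map (fun x : ℝ => (x + (p : ℝ) / q * j) / p)) :=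
    congrArg (fun ν => ∫ y : ℝ, Complex.exp (((2 * Real.pi * x : ℝ) : ℂ) * y * Complex.I) ∂ν) hs'
  rw [e1, integral_smul_measure, integral_finset_sum_measure (fun j _ => hi _ _)]
  have e2 : ∀ j : ℕ, ∫ y : ℝ, Complex.exp (((2 * Real.pi * x : ℝ) : ℂ) * y * Complex.I)
      ∂(μ.map (fun x : ℝ => (x + (p : ℝ) / q * j) / p)) =
      Complex.exp (2 * Real.pi * j * ((x / q : ℝ) : ℂ) * Complex.I) *
        ∫ y : ℝ, Complex.exp (((2 * Real.pi * (x / p) : ℝ) : ℂ) * y * Complex.I) ∂μ := by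
    intro j
    rw [integral_map (by fun_prop) (Continuous.aestronglyMeasurable (by fun_prop)),
      ← integral_const_mul]
    refine integral_congr_ae (ae_of_all _ fun y => ?_)
    simp only
    rw [← Complex.exp_add]
    congr 1
    push_cast
    field_simp
    ring
  simp_rw [e2]
  rw [← Finset.sum_mul, ENNReal.toReal_inv, ENNReal.toReal_natCast, Complex.real_smul]
  push_cast
  ring

theorem main : Pool.Agent.Q167.BD.TaskChar := by
  intro p q h μ _ hs
  refine ⟨?_, ?_, fun x => by positivity, fun x => ?_, fun x => ?_⟩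
  · have : Continuous (charFun μ) := continuous_charFun
    fun_prop
  · simp [charFun_zero]
  · exact pow_le_one₀ (norm_nonneg _) (norm_charFun_le_one _)
  · show ‖charFun μ (2 * Real.pi * x)‖ ^ 2 = _
    rw [key p q h μ hs x, norm_mul, mul_pow]
    rfl

end Pool.Agent.Q167.BD.TaskChar
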