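import Mathlib
import Pool.Agent.Q167.BD.Stmts

set_option autoImplicit false

open MeasureTheory Filter Topology Finset
open scoped ENNReal

namespace Pool.Agent.Q167.BD.TaskDens

theorem main : Pool.Agent.Q167.BD.TaskDens := by
  intro s D f hs hD hf hup hlow
  have key : ∀ h x : ℝ, {N : ℕ | f N ∈ Set.Ioo (x - h) (x + h)}.Finite →
      ((Set.range f ∩ Set.Ioo (x - h) (x + h)).encard : ℝ≥0∞) =
        ENNReal.ofReal (({N : ℕ | f N ∈ Set.Ioo (x - h) (x + h)}.ncard : ℝ)) := by
    intro h x hfin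
    have e : Set.range f ∩ Set.Ioo (x - h) (x + h) = f '' {N : ℕ | f N ∈ Set.Ioo (x - h) (x + h)} := by
      ext y
      constructor
      · rintro ⟨⟨N, rfl⟩, hN⟩
        exact ⟨N, hN, rfl⟩
      · rintro ⟨N, hN, rfl⟩
        exact ⟨⟨N, rfl⟩, hN⟩
    rw [e, hf.encard_image, ← hfin.cast_ncard_eq, ENNReal.ofReal_natCast]
    simp
  apply le_antisymm
  · refine ENNReal.le_of_forall_pos_le_add fun ε hε _ => ?_
    have h1 := hup ε (by exact_mod_cast hε)
    unfold upperDensity
    refine limsup_le_of_le (by isBoundedDefault) ?_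
    filter_upwards [h1, eventually_gt_atTop (0 : ℝ)] with h hh hpos
    refine iSup_le fun x => ?_
    obtain ⟨hfin, hle⟩ := hh x
    have hp := Real.rpow_pos_of_pos hpos s
    rw [key h x hfin, ← ENNReal.ofReal_div_of_pos hp, ← ENNReal.ofReal_coe_nnreal (p := ε),
      ← ENNReal.ofReal_add hD ε.coe_nonneg]
    refine ENNReal.ofReal_le_ofReal ?_
    rw [div_le_iff₀ hp]
    exact hle
  · refine ENNReal.le_of_forall_pos_le_add fun ε hε _ => ?_
    have h2 := hlow ε (by exact_mod_cast hε)
    have h3 := hup 1 one_pos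
    have h4 : ENNReal.ofReal (D - ε) ≤ upperDensity s (Set.range f) := by
      refine le_limsup_of_frequently_le ?_ (by isBoundedDefault)
      refine (h2.and_eventually (h3.and (eventually_gt_atTop (0 : ℝ)))).mono ?_
      rintro h ⟨⟨x, hx⟩, hfin, hpos⟩
      have hp := Real.rpow_pos_of_pos hpos s
      refine le_trans ?_ (le_iSup _ x)
      rw [key h x (hfin x).1, ← ENNReal.ofReal_div_of_pos hp]
      refine ENNReal.ofReal_le_ofReal ?_
      rw [le_div_iff₀ hp]
      exact hx
    calc ENNReal.ofReal D = ENNReal.ofReal (D - ε + ε) := by rw [sub_add_cancel]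
      _ ≤ ENNReal.ofReal (D - ε) + ENNReal.ofReal ε := ENNReal.ofReal_add_le
      _ ≤ _ := by
          rw [ENNReal.ofReal_coe_nnreal]
          exact add_le_add_left h4 _

end Pool.Agent.Q167.BD.TaskDens
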