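import Pool.Agent.Q167.BD.Stmts

set_option autoImplicit false

/-! Digits of `∑ d_j p^j` with `d_j < p` (helper158). -/

namespace Pool.Agent.Q167.BD.TaskDigit

open Finset

theorem digit (p : ℕ) (hp : 0 < p) : ∀ (n : ℕ) (d : ℕ → ℕ), (∀ i, d i < p) → ∀ i : ℕ,
    (∑ j ∈ range n, d j * p ^ j) / p ^ i % p = if i < n then d i else 0 := by
  intro n
  induction n with
  | zero =>
    intro d _ i
    simp
  | succ n ih =>
    intro d hd i
    have e : ∑ j ∈ range (n + 1), d j * p ^ j = d 0 + p * ∑ j ∈ range n, d (j + 1) * p ^ j := by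
      rw [Finset.sum_range_succ', Finset.mul_sum, pow_zero, mul_one, add_comm]
      congr 1
      refine Finset.sum_congr rfl fun j _ => ?_
      rw [pow_succ]
      ring
    rcases i with _ | i
    · rw [e, pow_zero, Nat.div_one, Nat.add_mul_mod_self_left, Nat.mod_eq_of_lt (hd 0)]
      simp
    · rw [e, pow_succ', ← Nat.div_div_eq_div_mul, Nat.add_mul_div_left _ _ hp,
        Nat.div_eq_of_lt (hd 0), zero_add, ih (fun j => d (j + 1)) (fun j => hd _) i]
      simp

theorem main : Pool.Agent.Q167.BD.TaskDigit := by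
  intro p q hA τ hτ N i
  have hp : 0 < p := by
    have := hA.lt
    omega
  have hd : ∀ i, τ N i < p := fun i => lt_of_le_of_lt (hτ.le N i) hA.lt
  unfold val trunc
  rw [digit p hp (N ^ 2 + 1) (τ N) hd i]
  split_ifs with h
  · rfl
  · exact (hτ.fin N i (by omega)).symm

end Pool.Agent.Q167.BD.TaskDigit
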