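import Pool.Agent.Q167.BD.Stmts

set_option autoImplicit false

open Finset

namespace Pool.Agent.Q167.BD.TaskGBasic

open Pool.Agent.Q167.BD

theorem term (x : ℝ) (j : ℕ) : Complex.exp (2 * Real.pi * j * x * Complex.I) =
    Complex.exp (2 * Real.pi * x * Complex.I) ^ j := by
  rw [← Complex.exp_nat_mul]
  congr 1
  ring

theorem norm_term (x : ℝ) (j : ℕ) :
    ‖Complex.exp (2 * Real.pi * j * x * Complex.I)‖ = 1 := by
  have h : (2 * Real.pi * j * x * Complex.I : ℂ) = ((2 * Real.pi * j * x : ℝ) : ℂ) * Complex.I := by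
    push_cast
    ring
  rw [h, Complex.norm_exp_ofReal_mul_I]

theorem main : Pool.Agent.Q167.BD.TaskGBasic := by
  intro q hq
  have hq0 : (0 : ℝ) < q := by exact_mod_cast hq
  have hqC : (q : ℂ) ≠ 0 := by exact_mod_cast (show q ≠ 0 by omega)
  refine ⟨fun x => sq_nonneg _, fun x => ?_, fun x m => ?_, fun x hx => ?_⟩
  · unfold G
    have h1 : ‖(1 / (q : ℂ)) * ∑ j ∈ range q, Complex.exp (2 * Real.pi * j * x * Complex.I)‖ ≤ 1 := by
      rw [norm_mul]
      have h2 : ‖∑ j ∈ range q, Complex.exp (2 * Real.pi * j * x * Complex.I)‖ ≤ q := by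
        refine (norm_sum_le _ _).trans ?_
        rw [Finset.sum_congr rfl fun j _ => norm_term x j]
        simp
      have h3 : ‖(1 / (q : ℂ))‖ = 1 / q := by simp
      rw [h3]
      calc 1 / (q : ℝ) * ‖∑ j ∈ range q, Complex.exp (2 * Real.pi * j * x * Complex.I)‖
          ≤ 1 / (q : ℝ) * q := mul_le_mul_of_nonneg_left h2 (by positivity)
        _ = 1 := by field_simp
    exact pow_le_one₀ (norm_nonneg _) h1
  · unfold G
    congr 3
    refine Finset.sum_congr rfl fun j _ => ?_
    have h1 : (2 * Real.pi * j * ((x + m : ℝ) : ℂ) * Complex.I : ℂ) =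
        2 * Real.pi * j * x * Complex.I + ((j * m : ℤ) : ℂ) * (2 * Real.pi * Complex.I) := by
      push_cast
      ring
    rw [h1, Complex.exp_add, Complex.exp_int_mul_two_pi_mul_I, mul_one]
  · unfold G
    have hz : ∑ j ∈ range q, Complex.exp (2 * Real.pi * j * x * Complex.I) ≠ 0 := by
      intro h0
      have h1 : ∑ j ∈ range q, Complex.exp (2 * Real.pi * x * Complex.I) ^ j = 0 := by
        rw [← h0]
        exact Finset.sum_congr rfl fun j _ => (term x j).symm
      have h2 := mul_geom_sum (Complex.exp (2 * Real.pi * x * Complex.I)) q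
      rw [h1, mul_zero] at h2
      have h3 : Complex.exp (q * (2 * Real.pi * x * Complex.I)) = 1 := by
        rw [Complex.exp_nat_mul]
        exact (sub_eq_zero.1 h2.symm)
      obtain ⟨n, hn⟩ := Complex.exp_eq_one_iff.1 h3
      have hpi : (2 * Real.pi * Complex.I : ℂ) ≠ 0 := Complex.two_pi_I_ne_zero
      have h4 : ((q * x : ℝ) : ℂ) = (n : ℂ) := by
        apply mul_right_cancel₀ hpi
        rw [← hn]
        push_cast
        ring
      have h5 : (q : ℝ) * x = n := by exact_mod_cast h4
      have h6 : |(n : ℝ)| < 1 := by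
        rw [← h5, abs_mul, abs_of_pos hq0]
        calc (q : ℝ) * |x| < q * (1 / q) := mul_lt_mul_of_pos_left hx hq0
          _ = 1 := by field_simp
      have h7 : n = 0 := by
        have : |n| < 1 := by exact_mod_cast h6
        exact Int.abs_lt_one_iff.1 this
      rw [h7] at h5
      have h8 : x = 0 := by
        rcases mul_eq_zero.1 (h5.trans Int.cast_zero) with h | h
        · exact absurd h hq0.ne'
        · exact h
      rw [h8] at h1
      simp at h1
      omega
    have h1 : (1 / (q : ℂ)) * ∑ j ∈ range q, Complex.exp (2 * Real.pi * j * x * Complex.I) ≠ 0 :=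
      mul_ne_zero (one_div_ne_zero hqC) hz
    have h2 := norm_pos_iff.2 h1
    positivity

end Pool.Agent.Q167.BD.TaskGBasic
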