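import Pool.Agent.Q167.BD.Stmts
set_option autoImplicit false

open Finset Complex

namespace Pool.Agent.Q167.BD.TaskGSum

lemma inner_sum (q : ℕ) (hq : 1 ≤ q) (j k : ℕ) (hj : j < q) (hk : k < q) :
    ∑ a ∈ range q, Complex.exp (2 * Real.pi * ((j : ℂ) - k) * ((a : ℂ) / q) * Complex.I) =
      if j = k then (q : ℂ) else 0 := by
  have hq0 : (q : ℂ) ≠ 0 := by
    have : q ≠ 0 := by omega
    exact_mod_cast this
  have h1 : ∀ a : ℕ, Complex.exp (2 * Real.pi * ((j : ℂ) - k) * ((a : ℂ) / q) * Complex.I) =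
      (Complex.exp (2 * Real.pi * ((j : ℂ) - k) / q * Complex.I)) ^ a := by
    intro a
    rw [← Complex.exp_nat_mul]
    congr 1
    field_simp
  simp_rw [h1]
  by_cases hjk : j = k
  · subst hjk
    simp
  · rw [if_neg hjk]
    set r := Complex.exp (2 * Real.pi * ((j : ℂ) - k) / q * Complex.I) with hr
    have hr1 : r ≠ 1 := by
      intro h
      rw [hr, Complex.exp_eq_one_iff] at h
      obtain ⟨n, hn⟩ := h
      have h2 : ((j : ℂ) - k) = n * q := by
        have hpi : (2 * Real.pi * Complex.I : ℂ) ≠ 0 := Complex.two_pi_I_ne_zero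
        have h3 : (2 * Real.pi * Complex.I : ℂ) * ((j : ℂ) - k) =
            (2 * Real.pi * Complex.I : ℂ) * (n * q) := by
          have h4 : (2 * Real.pi * ((j : ℂ) - k) / q * Complex.I) * q =
              (n * (2 * Real.pi * Complex.I)) * q := by rw [hn]
          have h5 : (2 * Real.pi * ((j : ℂ) - k) / q * Complex.I) * q =
              (2 * Real.pi * Complex.I : ℂ) * ((j : ℂ) - k) := by
            field_simp
          rw [← h5, h4]
          ring
        exact mul_left_cancel₀ hpi h3
      have h6 : (j : ℤ) - k = n * q := by exact_mod_cast h2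
      have h7 : n = 0 := by
        by_contra hn0
        have h8 : (q : ℤ) ≤ |n * q| := by
          rw [abs_mul]
          have h9 : 1 ≤ |n| := Int.one_le_abs hn0
          have h10 : |(q : ℤ)| = q := abs_of_nonneg (by positivity)
          rw [h10]
          nlinarith
        rw [← h6] at h8
        have h11 : |(j : ℤ) - k| < q := by
          rw [abs_lt]
          constructor <;> omega
        omega
      rw [h7] at h6
      apply hjk
      have : (j : ℤ) = k := by linarith
      exact_mod_cast this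
    have hrq : r ^ q = 1 := by
      rw [hr, ← Complex.exp_nat_mul, Complex.exp_eq_one_iff]
      refine ⟨(j : ℤ) - k, ?_⟩
      push_cast
      field_simp
    rw [geom_sum_eq hr1, hrq]
    simp

lemma normsq (q : ℕ) (y : ℝ) :
    ((‖∑ j ∈ range q, Complex.exp (2 * Real.pi * j * y * Complex.I)‖ ^ 2 : ℝ) : ℂ) =
      ∑ j ∈ range q, ∑ k ∈ range q,
        Complex.exp (2 * Real.pi * ((j : ℂ) - k) * y * Complex.I) := by
  have h1 : ((‖∑ j ∈ range q, Complex.exp (2 * Real.pi * j * y * Complex.I)‖ ^ 2 : ℝ) : ℂ) =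
      (∑ j ∈ range q, Complex.exp (2 * Real.pi * j * y * Complex.I)) *
        (starRingEnd ℂ) (∑ j ∈ range q, Complex.exp (2 * Real.pi * j * y * Complex.I)) := by
    rw [Complex.mul_conj, Complex.normSq_eq_norm_sq]
  rw [h1, map_sum, Finset.sum_mul_sum]
  refine Finset.sum_congr rfl fun j _ => Finset.sum_congr rfl fun k _ => ?_
  rw [← Complex.exp_conj, ← Complex.exp_add]
  congr 1
  simp only [map_mul, Complex.conj_ofReal, Complex.conj_I, map_natCast, map_ofNat]
  ring

theorem main : Pool.Agent.Q167.BD.TaskGSum := by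
  intro q hq x
  have hq0 : (q : ℝ) ≠ 0 := by
    have : q ≠ 0 := by omega
    exact_mod_cast this
  have hq0' : (q : ℂ) ≠ 0 := by exact_mod_cast hq0
  have h1 : ∀ y : ℝ, G q y = (1 / (q : ℝ) ^ 2) *
      ‖∑ j ∈ range q, Complex.exp (2 * Real.pi * j * y * Complex.I)‖ ^ 2 := by
    intro y
    unfold G
    rw [norm_mul, mul_pow]
    congr 1
    rw [norm_div, norm_one, Complex.norm_natCast, div_pow, one_pow]
  have h2 : (∑ a ∈ range q,
      ‖∑ j ∈ range q, Complex.exp (2 * Real.pi * j * ((x + (a : ℝ) / q : ℝ) : ℂ) * Complex.I)‖ ^ 2 : ℝ)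
      = (q : ℝ) ^ 2 := by
    have h3 : ((∑ a ∈ range q,
      ‖∑ j ∈ range q, Complex.exp (2 * Real.pi * j * ((x + (a : ℝ) / q : ℝ) : ℂ) * Complex.I)‖ ^ 2 : ℝ) : ℂ)
      = ((q : ℝ) ^ 2 : ℝ) := by
      rw [Complex.ofReal_sum]
      simp_rw [normsq]
      rw [Finset.sum_comm]
      have h4 : ∀ j ∈ range q, ∑ a ∈ range q, ∑ k ∈ range q,
          Complex.exp (2 * Real.pi * ((j : ℂ) - k) * ((x + (a : ℝ) / q : ℝ) : ℂ) * Complex.I) =
          (q : ℂ) := by
        intro j hj
        rw [Finset.sum_comm]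
        have h5 : ∀ k ∈ range q, ∑ a ∈ range q,
            Complex.exp (2 * Real.pi * ((j : ℂ) - k) * ((x + (a : ℝ) / q : ℝ) : ℂ) * Complex.I) =
            if j = k then (q : ℂ) else 0 := by
          intro k hk
          have h6 : ∀ a ∈ range q,
              Complex.exp (2 * Real.pi * ((j : ℂ) - k) * ((x + (a : ℝ) / q : ℝ) : ℂ) * Complex.I) =
              Complex.exp (2 * Real.pi * ((j : ℂ) - k) * x * Complex.I) *
              Complex.exp (2 * Real.pi * ((j : ℂ) - k) * ((a : ℂ) / q) * Complex.I) := by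
            intro a _
            rw [← Complex.exp_add]
            congr 1
            push_cast
            ring
          rw [Finset.sum_congr rfl h6, ← Finset.mul_sum,
            inner_sum q hq j k (mem_range.1 hj) (mem_range.1 hk)]
          by_cases hjk : j = k
          · subst hjk
            simp
          · simp [hjk]
        rw [Finset.sum_congr rfl h5, Finset.sum_ite_eq, if_pos hj]
      rw [Finset.sum_congr rfl h4]
      simp [pow_two]
    exact_mod_cast h3
  calc ∑ a ∈ range q, G q (x + (a : ℝ) / q)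
      = ∑ a ∈ range q, (1 / (q : ℝ) ^ 2) *
        ‖∑ j ∈ range q, Complex.exp (2 * Real.pi * j * ((x + (a : ℝ) / q : ℝ) : ℂ) * Complex.I)‖ ^ 2 :=
        Finset.sum_congr rfl fun a _ => h1 _
    _ = (1 / (q : ℝ) ^ 2) * (q : ℝ) ^ 2 := by rw [← Finset.mul_sum, h2]
    _ = 1 := by field_simp

end Pool.Agent.Q167.BD.TaskGSum
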