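import Pool.Agent.Q167.BD.Stmts
set_option autoImplicit false

/-! The products converge to `H` (blueprint lemma for `MP_5269d5_an`). -/

open MeasureTheory Filter Topology Finset
open scoped ENNReal

namespace Pool.Agent.Q167.BD.TaskHlim

theorem main (h1 : TaskHprod) : Pool.Agent.Q167.BD.TaskHlim := by
  intro p q hA H hH x
  have hp : 1 < (p : ℝ) := by
    have := hA.two; have := hA.lt
    exact_mod_cast (by omega : 1 < p)
  have h2 : Tendsto (fun n : ℕ => x / (p : ℝ) ^ n) atTop (𝓝 0) :=
    tendsto_const_nhds.div_atTop (tendsto_pow_atTop_atTop_of_one_lt hp)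
  have h3 : Tendsto (fun n : ℕ => H (x / (p : ℝ) ^ n)) atTop (𝓝 1) := by
    have h := (hH.cont.tendsto 0).comp h2
    rw [hH.zero] at h
    exact h
  have h4 : Tendsto (fun n : ℕ => H x / H (x / (p : ℝ) ^ n)) atTop (𝓝 (H x / 1)) :=
    tendsto_const_nhds.div h3 one_ne_zero
  rw [div_one] at h4
  refine h4.congr' ?_
  filter_upwards [h3.eventually_ne one_ne_zero] with n hn
  rw [h1 p q hA H hH n x, mul_div_cancel_right₀ _ hn]

end Pool.Agent.Q167.BD.TaskHlim
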