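import Pool.Agent.Q167.BD.Stmts

set_option autoImplicit false

open MeasureTheory Filter Topology Finset

namespace Pool.Agent.Q167.BD.TaskHlow

theorem main (h1 : TaskHprod) (h2 : TaskGBasic) : Pool.Agent.Q167.BD.TaskHlow := by
  intro p q hA H hH
  have hp : (1 : ℝ) < p := by exact_mod_cast lt_of_lt_of_le (by omega : 1 < 2) (hA.two.trans hA.lt.le)
  have hq : (0 : ℝ) < q := by exact_mod_cast lt_of_lt_of_le (by omega : 0 < 2) hA.two
  have hpos : ∀ x : ℝ, |x| ≤ 3 / 4 → 0 < H x := by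
    intro x hx
    have ht : Tendsto (fun n : ℕ => x / (p : ℝ) ^ n) atTop (𝓝 0) := by
      have := (tendsto_pow_atTop_nhds_zero_of_lt_one (r := ((p : ℝ))⁻¹) (by positivity)
        (inv_lt_one_of_one_lt₀ hp)).const_mul x
      simpa [div_eq_mul_inv, inv_pow] using this
    have ht2 : Tendsto (fun n : ℕ => H (x / (p : ℝ) ^ n)) atTop (𝓝 1) := by
      have := (hH.cont.tendsto 0).comp ht
      rwa [hH.zero] at this
    obtain ⟨n, hn⟩ := (ht2.eventually (lt_mem_nhds (zero_lt_one))).exists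
    rw [h1 p q hA H hH n x]
    refine mul_pos ?_ hn
    unfold hh
    refine Finset.prod_pos fun k _ => ?_
    refine (h2 q (by have := hA.two; omega)).2.2.2 _ ?_
    have hpk : (1 : ℝ) ≤ (p : ℝ) ^ k := one_le_pow₀ hp.le
    rw [abs_div, abs_of_pos (by positivity : (0 : ℝ) < q * (p : ℝ) ^ k), div_lt_div_iff₀ (by positivity) hq]
    nlinarith
  obtain ⟨x0, hx0, hm⟩ := (isCompact_Icc (a := -(3 / 4 : ℝ)) (b := 3 / 4)).exists_isMinOn
    ⟨0, by constructor <;> norm_num⟩ hH.cont.continuousOn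
  refine ⟨H x0, hpos x0 (abs_le.2 hx0), fun x hx => ?_⟩
  exact hm (abs_le.1 hx)

end Pool.Agent.Q167.BD.TaskHlow
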