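import Pool.Agent.Q167.BD.Stmts

set_option autoImplicit false

open MeasureTheory Filter Topology Finset
open scoped ENNReal

namespace Pool.Agent.Q167.BD.TaskHprod

theorem main : Pool.Agent.Q167.BD.TaskHprod := by
  intro p q hA H hH n x
  induction n with
  | zero => simp [hh]
  | succ n ih =>
    rw [ih, hH.eq (x / (p : ℝ) ^ n)]
    unfold hh
    rw [prod_range_succ]
    have e1 : x / (p : ℝ) ^ n / q = x / (q * (p : ℝ) ^ n) := by
      rw [div_div, mul_comm]
    have e2 : x / (p : ℝ) ^ n / p = x / (p : ℝ) ^ (n + 1) := by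
      rw [div_div, ← pow_succ]
    rw [e1, e2]
    ring

end Pool.Agent.Q167.BD.TaskHprod
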