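import Pool.Agent.Q167.BD.Stmts

set_option autoImplicit false

namespace Pool.Agent.Q167.BD.TaskInjS

open Pool.Agent.Q167.BD

theorem special {q : ℕ} (hq : 0 < q) {R : Set ℕ} {N m : ℕ} (h : tau q R N m = q) :
    (N % q ^ (m + 1)) ^ 2 = m := by
  classical
  unfold tau at h
  split_ifs at h with h1
  · exact h1.1
  · exact absurd h (Nat.mod_lt _ hq).ne

theorem main (hdig : TaskDigit) (hlab : TaskLabels) : Pool.Agent.Q167.BD.TaskInjS := by
  intro p q hA R k N₁ N₂ m hkm hm hval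
  have hL : Labels p q (tau q R) := hlab p q hA R
  have hq : 0 < q := by have := hA.two; omega
  have hlabel : ∀ i, k ≤ i → tau q R N₁ i = tau q R N₂ i := by
    intro i hi
    rw [← hdig p q hA _ hL N₁ i, ← hdig p q hA _ hL N₂ i]
    obtain ⟨j, rfl⟩ := Nat.exists_eq_add_of_le hi
    rw [pow_add, ← Nat.div_div_eq_div_mul, ← Nat.div_div_eq_div_mul, hval]
  have hm2 : tau q R N₂ m = q := by rw [← hlabel m hkm, hm]
  have h1 := special hq hm
  have h2 := special hq hm2
  have hmod : N₁ % q ^ (m + 1) = N₂ % q ^ (m + 1) :=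
    Nat.pow_left_injective (n := 2) (by norm_num) (by simp only; rw [h1, h2])
  have hstep : ∀ n, N₁ % q ^ (m + 1 + n) = N₂ % q ^ (m + 1 + n) := by
    intro n
    induction n with
    | zero => exact hmod
    | succ n ih =>
      have h3 : N₁ / q ^ (m + 1 + n) % q = N₂ / q ^ (m + 1 + n) % q := by
        rw [← hL.cong N₁ (m + 1 + n), ← hL.cong N₂ (m + 1 + n), hlabel (m + 1 + n) (by omega)]
      rw [← add_assoc, Nat.mod_pow_succ, Nat.mod_pow_succ, ih, h3]
  have hbig : ∀ N ≤ N₁ + N₂, N < q ^ (m + 1 + (N₁ + N₂)) := by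
    intro N hN
    have h4 : N₁ + N₂ < q ^ (N₁ + N₂) := Nat.lt_pow_self hA.two
    have h5 : q ^ (N₁ + N₂) ≤ q ^ (m + 1 + (N₁ + N₂)) := Nat.pow_le_pow_right hq (by omega)
    omega
  have h6 := hstep (N₁ + N₂)
  rwa [Nat.mod_eq_of_lt (hbig N₁ (by omega)), Nat.mod_eq_of_lt (hbig N₂ (by omega))] at h6

end Pool.Agent.Q167.BD.TaskInjS
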