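import Pool.Agent.Q167.BD.Stmts
set_option autoImplicit false

namespace Pool.Agent.Q167.BD.TaskLabels
open Pool.Agent.Q167.BD

theorem le_sq (N : ℕ) : N ≤ N ^ 2 := Nat.le_self_pow (by norm_num) N

theorem main : Pool.Agent.Q167.BD.TaskLabels := by
  intro p q hA R
  have hq2 : 2 ≤ q := hA.two
  have hq0 : 0 < q := by omega
  have hq1 : 1 < q := by omega
  have hlt : ∀ i : ℕ, i < q ^ i := fun i => Nat.lt_pow_self hq1
  have hdig : ∀ N i : ℕ, (N % q ^ (i + 1)) / q ^ i = N / q ^ i % q := by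
    intro N i
    rw [pow_succ]
    exact Nat.mod_mul_right_div_self N (q ^ i) q
  refine ⟨?_, ?_, ?_, ?_, ?_⟩
  · intro N i
    unfold tau
    rw [Nat.mod_mod, hdig, Nat.mod_mod]
  · intro N i
    unfold tau
    split_ifs with h
    · rw [Nat.mod_self, ← hdig N i]
      symm
      apply Nat.div_eq_of_lt
      calc N % q ^ (i + 1) ≤ (N % q ^ (i + 1)) ^ 2 := le_sq _
        _ = i := h.1
        _ < q ^ i := hlt i
    · rw [Nat.mod_mod]
  · intro N i
    unfold tau
    split_ifs with h
    · exact le_rfl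
    · exact (Nat.mod_lt _ hq0).le
  · have key : ∀ n N i : ℕ, N < q ^ n → n ≤ i → tau q R N i ≠ 0 → N ^ 2 = i := by
      intro n N i hN hi h
      have h1 : N < q ^ i := lt_of_lt_of_le hN (Nat.pow_le_pow_right hq0 hi)
      have h2 : N < q ^ (i + 1) := lt_of_lt_of_le hN (Nat.pow_le_pow_right hq0 (by omega))
      unfold tau at h
      rw [Nat.mod_eq_of_lt h2, Nat.div_eq_of_lt h1] at h
      by_contra hne
      apply h
      rw [if_neg (fun hh => hne hh.1)]
      exact Nat.zero_mod q
    intro n N i j hN hi hj h1 h2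
    rw [← key n N i hN hi h1, ← key n N j hN hj h2]
  · intro N i hi
    have h0 : N < i := lt_of_le_of_lt (le_sq N) hi
    have h1 : N < q ^ i := h0.trans (hlt i)
    have h2 : N < q ^ (i + 1) := lt_of_lt_of_le h1 (Nat.pow_le_pow_right hq0 (by omega))
    unfold tau
    rw [Nat.mod_eq_of_lt h2, Nat.div_eq_of_lt h1, if_neg (fun hh => by have := hh.1; omega)]
    exact Nat.zero_mod q

end Pool.Agent.Q167.BD.TaskLabels
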