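import Mathlib
import Pool.Agent.Q167.BD.Stmts

set_option autoImplicit false

namespace Pool.Agent.Q167.BD.TaskLamMono

theorem main (h1 : Pool.Agent.Q167.BD.TaskLamRec) : Pool.Agent.Q167.BD.TaskLamMono := by
  intro p q hA
  have h2 := hA.two
  have hlt := hA.lt
  have rec1 := h1 p q hA
  have l0 : lam p q 0 = 0 := by
    unfold lam
    simp
  constructor
  · refine strictMono_nat_of_lt_succ fun N => ?_
    induction N using Nat.strong_induction_on with
    | _ N ih =>
      have hN : N = q * (N / q) + N % q := (Nat.div_add_mod N q).symm
      have hc : N % q < q := Nat.mod_lt _ (by omega)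
      set M := N / q with hM
      set c := N % q with hcdef
      have e1 : lam p q N = p * lam p q M + c := by
        conv_lhs => rw [hN]
        exact rec1 M c hc
      rcases Nat.lt_or_ge (c + 1) q with hc1 | hc1
      · have e2 : lam p q (N + 1) = p * lam p q M + (c + 1) := by
          have : N + 1 = q * M + (c + 1) := by omega
          rw [this]
          exact rec1 M (c + 1) hc1
        omega
      · have hcq : c = q - 1 := by omega
        have e2 : lam p q (N + 1) = p * lam p q (M + 1) := by
          have : N + 1 = q * (M + 1) + 0 := by
            rw [mul_add, mul_one]; omega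
          rw [this]
          simpa using rec1 (M + 1) 0 (by omega)
        have hMN : M < N := by
          rw [hM]
          refine Nat.div_lt_self ?_ (by omega)
          have : c ≤ N := Nat.mod_le _ _
          omega
        have := ih M hMN
        rw [e1, e2]
        have h3 : p * (lam p q M + 1) ≤ p * lam p q (M + 1) := Nat.mul_le_mul_left _ this
        rw [mul_add, mul_one] at h3
        omega
  · have hp1 : (0 : ℝ) < (p : ℝ) - 1 := by
      have : (2 : ℝ) < p := by exact_mod_cast lt_of_le_of_lt h2 hlt
      linarith
    have hk : kap p q * ((p : ℝ) - 1) = (q : ℝ) - 1 := by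
      unfold kap
      field_simp
    have hk0 : 0 ≤ kap p q := by
      unfold kap
      have : (2 : ℝ) ≤ q := by exact_mod_cast h2
      exact div_nonneg (by linarith) hp1.le
    intro n
    induction n with
    | zero =>
      intro N hN
      have : N = 0 := by simpa using hN
      subst this
      rw [l0]
      simp
    | succ n ih =>
      intro N hN
      have hc : N % q < q := Nat.mod_lt _ (by omega)
      have e1 : lam p q N = p * lam p q (N / q) + N % q := by
        conv_lhs => rw [(Nat.div_add_mod N q).symm]
        exact rec1 _ _ hc
      have hM : N / q < q ^ n := by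
        rw [Nat.div_lt_iff_lt_mul (by omega)]
        rw [pow_succ] at hN
        exact hN
      have h3 := ih _ hM
      have h4 : ((N % q : ℕ) : ℝ) ≤ (q : ℝ) - 1 := by
        have : N % q + 1 ≤ q := hc
        have : ((N % q : ℕ) : ℝ) + 1 ≤ q := by exact_mod_cast this
        linarith
      have hp0 : (0 : ℝ) ≤ p := Nat.cast_nonneg _
      rw [e1]
      push_cast
      have h5 := mul_le_mul_of_nonneg_left h3 hp0
      have h6 : kap p q * ((p : ℝ) ^ (n + 1) - 1) =
          p * (kap p q * ((p : ℝ) ^ n - 1)) + kap p q * ((p : ℝ) - 1) := by ring
      rw [h6, hk]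
      push_cast at h4 h5 ⊢
      linarith

end Pool.Agent.Q167.BD.TaskLamMono
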