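import Pool.Agent.Q167.BD.Stmts
set_option autoImplicit false

namespace Pool.Agent.Q167.BD.TaskLamRec

open Finset Pool.Agent.Q167.BD

theorem lam_ext {p q : ℕ} (hq : 2 ≤ q) (N K : ℕ) (hK : N + 1 ≤ K) :
    ∑ i ∈ range K, (N / q ^ i % q) * p ^ i = lam p q N := by
  unfold lam
  symm
  apply sum_subset (range_subset_range.2 hK)
  intro i _ hi
  rw [mem_range, not_lt] at hi
  have h1 : i < q ^ i := Nat.lt_pow_self (by omega)
  rw [Nat.div_eq_of_lt (by omega), Nat.zero_mod, zero_mul]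

theorem main : Pool.Agent.Q167.BD.TaskLamRec := by
  intro p q hpq N c hc
  have hq := hpq.two
  have hq0 : 0 < q := by omega
  rw [← lam_ext hq (q * N + c) (q * N + c + N + 1 + 1) (by omega), sum_range_succ']
  have h1 : ∀ i, (q * N + c) / q ^ (i + 1) = N / q ^ i := by
    intro i
    rw [pow_succ', ← Nat.div_div_eq_div_mul, Nat.mul_add_div hq0, Nat.div_eq_of_lt hc, add_zero]
  simp only [h1]
  rw [pow_zero, pow_zero, Nat.div_one, Nat.mul_add_mod, Nat.mod_eq_of_lt hc, mul_one]
  congr 1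
  rw [← lam_ext hq N (q * N + c + N + 1) (by omega), mul_sum]
  refine sum_congr rfl fun i _ => ?_
  rw [pow_succ]
  ring

end Pool.Agent.Q167.BD.TaskLamRec
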