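import Pool.Agent.Q167.BD.Stmts
set_option autoImplicit false

namespace Pool.Agent.Q167.BD.TaskLimLow

open Filter Topology

theorem main : Pool.Agent.Q167.BD.TaskLimLow := by
  intro p q hpq θ hθ0 hθ1 ε hε
  have hq2 : (2 : ℝ) ≤ q := by exact_mod_cast hpq.two
  have hp2 : (q : ℝ) + 1 ≤ p := by exact_mod_cast hpq.lt
  have hp0 : (0 : ℝ) < p := by linarith
  have hq0 : (0 : ℝ) < q := by linarith
  have hp1 : (1 : ℝ) < p := by linarith
  have hq1 : (1 : ℝ) < q := by linarith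
  have hlp : 0 < Real.log p := Real.log_pos hp1
  have hlq : 0 < Real.log q := Real.log_pos hq1
  have hs : 0 < ss p q := div_pos hlq hlp
  have hk : 0 < kap p q := div_pos (by linarith) (by linarith)
  have hps : (p : ℝ) ^ ss p q = q := by
    unfold ss
    rw [Real.rpow_def_of_pos hp0, mul_div_cancel₀ _ hlp.ne', Real.exp_log hq0]
  have hM : (2 * ((p : ℝ) - 1) / ((q : ℝ) - 1)) ^ ss p q * (kap p q / 2) ^ ss p q = 1 := by
    have h1 : (0 : ℝ) < (p : ℝ) - 1 := by linarith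
    have h2 : (0 : ℝ) < (q : ℝ) - 1 := by linarith
    rw [← Real.mul_rpow (by positivity) (by positivity)]
    have : 2 * ((p : ℝ) - 1) / ((q : ℝ) - 1) * (kap p q / 2) = 1 := by
      unfold kap
      field_simp
    rw [this, Real.one_rpow]
  set M : ℝ := (2 * ((p : ℝ) - 1) / ((q : ℝ) - 1)) ^ ss p q with hMdef
  -- the two limits
  have hd : Tendsto (fun J : ℕ => ((p : ℝ) ^ (2 * J - 2))⁻¹) atTop (𝓝 0) := by
    have h1 : Tendsto (fun J : ℕ => (p : ℝ) ^ (2 * J - 2)) atTop atTop := by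
      refine (tendsto_pow_atTop_atTop_of_one_lt hp1).comp ?_
      refine tendsto_atTop.2 fun b => ?_
      filter_upwards [eventually_ge_atTop (b + 2)] with J hJ
      omega
    exact h1.inv_tendsto_atTop
  have hl1 : Tendsto (fun J : ℕ => (θ * M - ε) * (kap p q / 2 + ((p : ℝ) ^ (2 * J - 2))⁻¹) ^ ss p q)
      atTop (𝓝 ((θ * M - ε) * (kap p q / 2 + 0) ^ ss p q)) := by
    refine Tendsto.const_mul _ ?_
    refine Tendsto.rpow_const (tendsto_const_nhds.add hd) (Or.inr hs.le)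
  have hl2 : Tendsto (fun J : ℕ => θ - ((q : ℝ) ^ (J ^ 2))⁻¹) atTop (𝓝 (θ - 0)) := by
    refine tendsto_const_nhds.sub ?_
    have h1 : Tendsto (fun J : ℕ => (q : ℝ) ^ (J ^ 2)) atTop atTop := by
      refine (tendsto_pow_atTop_atTop_of_one_lt hq1).comp ?_
      exact tendsto_pow_atTop (by norm_num)
    exact h1.inv_tendsto_atTop
  have hlt : (θ * M - ε) * (kap p q / 2 + 0) ^ ss p q < θ - 0 := by
    have h3 : 0 < ε * (kap p q / 2) ^ ss p q := mul_pos hε (Real.rpow_pos_of_pos (by positivity) _)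
    have h4 : (θ * M - ε) * (kap p q / 2 + 0) ^ ss p q =
        θ * (M * (kap p q / 2) ^ ss p q) - ε * (kap p q / 2) ^ ss p q := by
      rw [add_zero]; ring
    rw [h4, hM]
    linarith
  filter_upwards [hl1.eventually_lt hl2 hlt, eventually_ge_atTop 1] with J hJ hJ1
  have hqJ : 0 < (q : ℝ) ^ (J ^ 2) := by positivity
  have e0 : (J - 1) ^ 2 + 1 + (2 * J - 2) = J ^ 2 := by
    obtain ⟨j, rfl⟩ : ∃ j, J = j + 1 := ⟨J - 1, by omega⟩
    have : 2 * (j + 1) - 2 = 2 * j := by omega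
    rw [this, Nat.add_sub_cancel]
    ring
  have e1 : (p : ℝ) ^ ((J - 1) ^ 2 + 1) = (p : ℝ) ^ (J ^ 2) * ((p : ℝ) ^ (2 * J - 2))⁻¹ := by
    rw [← e0, pow_add _ ((J - 1) ^ 2 + 1) (2 * J - 2), mul_assoc, mul_inv_cancel₀ (by positivity),
      mul_one]
  have e2 : (kap p q * (p : ℝ) ^ (J ^ 2) / 2 + (p : ℝ) ^ ((J - 1) ^ 2 + 1)) ^ ss p q =
      (q : ℝ) ^ (J ^ 2) * (kap p q / 2 + ((p : ℝ) ^ (2 * J - 2))⁻¹) ^ ss p q := by
    have : kap p q * (p : ℝ) ^ (J ^ 2) / 2 + (p : ℝ) ^ ((J - 1) ^ 2 + 1) =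
        (p : ℝ) ^ (J ^ 2) * (kap p q / 2 + ((p : ℝ) ^ (2 * J - 2))⁻¹) := by
      rw [e1]; ring
    rw [this, Real.mul_rpow (by positivity) (by positivity)]
    congr 1
    rw [← Real.rpow_natCast, ← Real.rpow_mul hp0.le, mul_comm, Real.rpow_mul hp0.le, hps,
      Real.rpow_natCast]
  rw [e2]
  calc (θ * M - ε) * ((q : ℝ) ^ (J ^ 2) * (kap p q / 2 + ((p : ℝ) ^ (2 * J - 2))⁻¹) ^ ss p q)
      = (q : ℝ) ^ (J ^ 2) * ((θ * M - ε) * (kap p q / 2 + ((p : ℝ) ^ (2 * J - 2))⁻¹) ^ ss p q) := by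
        ring
    _ ≤ (q : ℝ) ^ (J ^ 2) * (θ - ((q : ℝ) ^ (J ^ 2))⁻¹) := mul_le_mul_of_nonneg_left hJ.le hqJ.le
    _ = θ * (q : ℝ) ^ (J ^ 2) - 1 := by
        rw [mul_sub, mul_inv_cancel₀ hqJ.ne']; ring

end Pool.Agent.Q167.BD.TaskLimLow
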