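import Pool.Agent.Q167.BD.Stmts

set_option autoImplicit false

open MeasureTheory Filter Topology Finset
open scoped ENNReal

namespace Pool.Agent.Q167.BD.TaskLimUp

open Pool.Agent.Q167.BD

theorem main : Pool.Agent.Q167.BD.TaskLimUp := by
  intro p q hA θ h0 h1 ε hε
  have hq1 : (1 : ℝ) < q := by exact_mod_cast (lt_of_lt_of_le one_lt_two hA.two)
  have hpq : (q : ℝ) < p := by exact_mod_cast hA.lt
  have hp1 : (1 : ℝ) < p := hq1.trans hpq
  have hp0 : (0 : ℝ) < p := by linarith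
  have hlq : 0 < Real.log q := Real.log_pos hq1
  have hlp : 0 < Real.log p := Real.log_pos hp1
  have hlqp : Real.log q < Real.log p := Real.log_lt_log (by linarith) hpq
  set s : ℝ := ss p q with hs
  have hs0 : 0 < s := by rw [hs]; unfold ss; positivity
  have hs1 : s < 1 := by rw [hs]; unfold ss; rwa [div_lt_one hlp]
  set κ : ℝ := kap p q with hκ
  have hκ0 : 0 < κ := by
    rw [hκ]; unfold kap
    exact div_pos (by linarith) (by linarith)
  have hκ2 : 2 * ((p : ℝ) - 1) / ((q : ℝ) - 1) = 2 / κ := by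
    rw [hκ]; unfold kap
    have h2 : (q : ℝ) - 1 ≠ 0 := by linarith
    have h3 : (p : ℝ) - 1 ≠ 0 := by linarith
    field_simp
  rw [hκ2]
  -- the limit
  have hlim : Tendsto (fun h : ℝ => 2 * p * h ^ (-(s / 2)) + 3 * h ^ (-s) +
      (1 / Real.log p) * (Real.log h / h ^ s) +
      θ * ((2 + h ^ (-(s / 2)) + κ * h⁻¹) / κ) ^ s) atTop
      (𝓝 (2 * p * 0 + 3 * 0 + (1 / Real.log p) * 0 + θ * ((2 + 0 + κ * 0) / κ) ^ s)) := by
    have t1 : Tendsto (fun h : ℝ => h ^ (-(s / 2))) atTop (𝓝 0) :=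
      tendsto_rpow_neg_atTop (by linarith)
    have t2 : Tendsto (fun h : ℝ => h ^ (-s)) atTop (𝓝 0) := tendsto_rpow_neg_atTop hs0
    have t3 : Tendsto (fun h : ℝ => Real.log h / h ^ s) atTop (𝓝 0) :=
      (isLittleO_log_rpow_atTop hs0).tendsto_div_nhds_zero
    have t4 : Tendsto (fun h : ℝ => h⁻¹) atTop (𝓝 0) := tendsto_inv_atTop_zero
    have t5 : Tendsto (fun h : ℝ => (2 + h ^ (-(s / 2)) + κ * h⁻¹) / κ) atTop
        (𝓝 ((2 + 0 + κ * 0) / κ)) := ((t1.const_add 2).add (t4.const_mul κ)).div_const κ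
    exact (((t1.const_mul _).add (t2.const_mul _)).add (t3.const_mul _)).add
      ((t5.rpow_const (Or.inr hs0.le)).const_mul θ)
  have hval : 2 * (p : ℝ) * 0 + 3 * 0 + (1 / Real.log p) * 0 + θ * ((2 + 0 + κ * 0) / κ) ^ s <
      θ * (2 / κ) ^ s + ε := by
    have : ((2 + 0 + κ * 0) / κ) = 2 / κ := by ring
    rw [this]
    linarith
  filter_upwards [hlim.eventually (gt_mem_nhds hval), eventually_ge_atTop (1 : ℝ)] with h hh hh1
  have hh0 : 0 < h := by linarith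
  have hlh : 0 ≤ Real.log h := Real.log_nonneg hh1
  have hc : 0 ≤ (1 - s / 2) * Real.log h / Real.log p :=
    div_nonneg (mul_nonneg (by linarith) hlh) hlp.le
  refine ⟨⌊(1 - s / 2) * Real.log h / Real.log p⌋₊, ?_⟩
  set k : ℕ := ⌊(1 - s / 2) * Real.log h / Real.log p⌋₊ with hk
  have hk1 : (k : ℝ) ≤ (1 - s / 2) * Real.log h / Real.log p := Nat.floor_le hc
  have hk2 : (1 - s / 2) * Real.log h / Real.log p < k + 1 := Nat.lt_floor_add_one _
  have hk1' : (k : ℝ) * Real.log p ≤ (1 - s / 2) * Real.log h := by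
    rwa [le_div_iff₀ hlp] at hk1
  have hk2' : (1 - s / 2) * Real.log h < ((k : ℝ) + 1) * Real.log p := by
    rwa [div_lt_iff₀ hlp] at hk2
  have hkk : (k : ℝ) ≤ Real.log h / Real.log p := by
    rw [le_div_iff₀ hlp]
    nlinarith
  have e1 : (p : ℝ) ^ k ≤ h ^ (1 - s / 2) := by
    rw [← Real.rpow_natCast, Real.rpow_def_of_pos hp0, Real.rpow_def_of_pos hh0]
    exact Real.exp_le_exp.2 (by linarith)
  have e2 : h ^ (1 - s / 2) ≤ (p : ℝ) ^ (k + 1) := by
    rw [← Real.rpow_natCast, Real.rpow_def_of_pos hp0, Real.rpow_def_of_pos hh0]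
    refine Real.exp_le_exp.2 ?_
    push_cast
    linarith
  have hpk : (0 : ℝ) < (p : ℝ) ^ k := pow_pos hp0 k
  have hhs : 0 < h ^ s := Real.rpow_pos_of_pos hh0 s
  have hhs2 : 0 < h ^ (s / 2) := Real.rpow_pos_of_pos hh0 _
  have hmul : h ^ (1 - s / 2) * h ^ (s / 2) = h := by
    rw [← Real.rpow_add hh0]
    have : 1 - s / 2 + s / 2 = 1 := by ring
    rw [this, Real.rpow_one]
  -- first term
  have b1 : 2 * h / (p : ℝ) ^ k ≤ 2 * p * h ^ (s / 2) := by
    rw [div_le_iff₀ hpk]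
    have : h ≤ (p : ℝ) ^ (k + 1) * h ^ (s / 2) := by
      calc h = h ^ (1 - s / 2) * h ^ (s / 2) := hmul.symm
        _ ≤ _ := mul_le_mul_of_nonneg_right e2 hhs2.le
    have h5 : 2 * (p : ℝ) * h ^ (s / 2) * (p : ℝ) ^ k = 2 * ((p : ℝ) ^ (k + 1) * h ^ (s / 2)) := by
      ring
    rw [h5]
    linarith
  -- last term
  have b2 : (1 + (2 * h + (p : ℝ) ^ k) / κ) ^ s ≤
      ((2 + h ^ (-(s / 2)) + κ * h⁻¹) / κ) ^ s * h ^ s := by
    rw [← Real.mul_rpow (by positivity) hh0.le]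
    refine Real.rpow_le_rpow (by positivity) ?_ hs0.le
    have h6 : (2 + h ^ (-(s / 2)) + κ * h⁻¹) / κ * h = 1 + (2 * h + h ^ (1 - s / 2)) / κ := by
      have h7 : h ^ (1 - s / 2) = h ^ (-(s / 2)) * h := by
        rw [sub_eq_add_neg, add_comm, Real.rpow_add hh0, Real.rpow_one]
      rw [h7]
      field_simp
      ring
    rw [h6]
    gcongr
  have b3 : h ^ (-(s / 2)) * h ^ s = h ^ (s / 2) := by
    rw [← Real.rpow_add hh0]
    congr 1
    ring
  have b4 : h ^ (-s) * h ^ s = 1 := by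
    rw [← Real.rpow_add hh0, neg_add_cancel, Real.rpow_zero]
  have b5 : Real.log h / h ^ s * h ^ s = Real.log h := div_mul_cancel₀ _ hhs.ne'
  have hfin := mul_le_mul_of_nonneg_right hh.le hhs.le
  have h8 : (2 * p * h ^ (-(s / 2)) + 3 * h ^ (-s) +
      (1 / Real.log p) * (Real.log h / h ^ s) +
      θ * ((2 + h ^ (-(s / 2)) + κ * h⁻¹) / κ) ^ s) * h ^ s =
      2 * p * (h ^ (-(s / 2)) * h ^ s) + 3 * (h ^ (-s) * h ^ s) +
      (1 / Real.log p) * (Real.log h / h ^ s * h ^ s) +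
      θ * (((2 + h ^ (-(s / 2)) + κ * h⁻¹) / κ) ^ s * h ^ s) := by ring
  rw [h8, b3, b4, b5] at hfin
  have b6 : (1 / Real.log p) * Real.log h = Real.log h / Real.log p := by ring
  rw [b6] at hfin
  have b7 := mul_le_mul_of_nonneg_left b2 h0
  linarith

end Pool.Agent.Q167.BD.TaskLimUp
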