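import Pool.Agent.Q167.BD.Stmts
set_option autoImplicit false

open MeasureTheory Filter Topology Finset
open scoped ENNReal

namespace Pool.Agent.Q167.BD.TaskLow

open Pool.Agent.Q167.BD

theorem hh_nonneg (p q n : ℕ) (x : ℝ) : 0 ≤ hh p q n x :=
  Finset.prod_nonneg fun _ _ => sq_nonneg _

theorem main (h1 : TaskTail) (h2 : TaskTruncLe) (h3 : TaskHprod) (h4 : TaskHlow) (h5 : TaskPer) :
    Pool.Agent.Q167.BD.TaskLow := by
  intro p q hpq H hH τ hτ
  obtain ⟨c, hc, hlow⟩ := h4 p q hpq H hH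
  have hc1 : c ≤ 1 := (hlow 0 (by norm_num)).trans (hH.le_one 0)
  have hq2 : 2 ≤ q := hpq.two
  have hp2 : 2 * q ≤ p := by
    obtain ⟨k, hk⟩ := hpq.dvd
    have hlt := hpq.lt
    have : 2 ≤ k := by
      by_contra hcon
      have : k = 0 ∨ k = 1 := by omega
      rcases this with h | h
      · rw [h] at hk; omega
      · rw [h] at hk; omega
    rw [hk]
    nlinarith
  have hpR : (4 : ℝ) ≤ p := by
    have : 4 ≤ p := by omega
    exact_mod_cast this
  have hp0 : (0 : ℝ) < p := by linarith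
  have hqp : (q : ℝ) / p ≤ 1 / 2 := by
    rw [div_le_div_iff₀ hp0 (by norm_num)]
    have : (2 : ℝ) * q ≤ p := by exact_mod_cast hp2
    linarith
  refine ⟨c * c, by positivity, fun x => ?_⟩
  -- for n large, |x| / p ^ n ≤ 1 / 12
  have hlim : Tendsto (fun n : ℕ => |x| / (p : ℝ) ^ n) atTop (𝓝 0) :=
    tendsto_const_nhds.div_atTop (tendsto_pow_atTop_atTop_of_one_lt (by linarith))
  filter_upwards [hlim.eventually (gt_mem_nhds (show (0 : ℝ) < 1 / 12 by norm_num))] with n hn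
  intro N hN
  have hpn : (0 : ℝ) < (p : ℝ) ^ n := pow_pos hp0 n
  have hT := h2 p q hpq τ hτ n N
  have hTR : (3 : ℝ) * (trunc p τ n N : ℝ) ≤ 2 * (p : ℝ) ^ n := by exact_mod_cast hT
  set x0 : ℝ := (x + trunc p τ n N) / (p : ℝ) ^ n with hx0
  have hT0 : (0 : ℝ) ≤ (trunc p τ n N : ℝ) := Nat.cast_nonneg _
  have hxabs : |x| ≤ (1 / 12) * (p : ℝ) ^ n := by
    have := hn.le
    rwa [div_le_iff₀ hpn] at this
  have hx0le : |x0| ≤ 3 / 4 := by
    rw [hx0, abs_div, abs_of_pos hpn, div_le_iff₀ hpn]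
    have := abs_add_le x (trunc p τ n N : ℝ)
    rw [abs_of_nonneg hT0] at this
    linarith
  have hHx0 : c ≤ H x0 := hlow x0 hx0le
  have hprod := h3 p q hpq H hH n (x + val p τ N)
  have hgoal : c * c ≤ H ((x + val p τ N) / (p : ℝ) ^ n) := by
    rcases h1 p q hpq τ hτ n N hN with h | ⟨j, hj, h⟩
    · rw [h, ← hx0]
      nlinarith
    · obtain ⟨J, rfl⟩ := Nat.exists_eq_add_of_le hj
      have hy : (x + (val p τ N : ℝ)) / (p : ℝ) ^ n = x0 + q * (p : ℝ) ^ J * ((1 : ℤ) : ℝ) := by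
        rw [h, hx0]
        push_cast
        rw [pow_add]
        field_simp
        ring
      rw [hy]
      have e1 := h3 p q hpq H hH (J + 1) (x0 + q * (p : ℝ) ^ J * ((1 : ℤ) : ℝ))
      have e2 := h5 p q hpq (J + 1) J 1 x0 le_rfl
      have e3 := h3 p q hpq H hH (J + 1) x0
      rw [e1, e2]
      have hpJ : (0 : ℝ) < (p : ℝ) ^ (J + 1) := pow_pos hp0 _
      have hpJ4 : (4 : ℝ) ≤ (p : ℝ) ^ (J + 1) := by
        have : (1 : ℝ) ≤ (p : ℝ) ^ J := one_le_pow₀ (by linarith)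
        rw [pow_succ]
        nlinarith
      have hz : (x0 + q * (p : ℝ) ^ J * ((1 : ℤ) : ℝ)) / (p : ℝ) ^ (J + 1) =
          x0 / (p : ℝ) ^ (J + 1) + q / p := by
        rw [pow_succ]
        push_cast
        field_simp
      have hzle : |(x0 + q * (p : ℝ) ^ J * ((1 : ℤ) : ℝ)) / (p : ℝ) ^ (J + 1)| ≤ 3 / 4 := by
        rw [hz]
        have a1 : |x0 / (p : ℝ) ^ (J + 1)| ≤ 3 / 16 := by
          rw [abs_div, abs_of_pos hpJ, div_le_iff₀ hpJ]
          linarith
        have a2 : |(q : ℝ) / p| ≤ 1 / 2 := by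
          rw [abs_of_nonneg (by positivity)]
          exact hqp
        have := abs_add_le (x0 / (p : ℝ) ^ (J + 1)) ((q : ℝ) / p)
        linarith
      have b1 := hlow _ hzle
      have b2 : c ≤ hh p q (J + 1) x0 := by
        have b3 := hH.le_one (x0 / (p : ℝ) ^ (J + 1))
        have b4 := hH.nonneg (x0 / (p : ℝ) ^ (J + 1))
        have b5 := hh_nonneg p q (J + 1) x0
        nlinarith
      exact mul_le_mul b2 b1 hc.le (hh_nonneg _ _ _ _)
  rw [hprod, mul_comm (c * c)]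
  exact mul_le_mul_of_nonneg_left hgoal (hh_nonneg _ _ _ _)

end Pool.Agent.Q167.BD.TaskLow
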