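import Pool.Agent.Q167.BD.Stmts

set_option autoImplicit false

open MeasureTheory Filter Topology Finset
open scoped ENNReal

namespace Pool.Agent.Q167.BD.TaskLower

private theorem tau_ne {q : ℕ} (hq : 2 ≤ q) {R : Set ℕ} {J N m : ℕ} (hN : N ∈ R)
    (hNq : N < q ^ (J ^ 2)) (hm : (J - 1) ^ 2 + 1 ≤ m) : tau q R N m ≠ q := by
  unfold tau
  split_ifs with h
  · exfalso
    obtain ⟨h1, h2⟩ := h
    have h3 : J ≤ N % q ^ (m + 1) := by
      by_contra h3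
      have h4 : N % q ^ (m + 1) ≤ J - 1 := by omega
      have h5 : (N % q ^ (m + 1)) ^ 2 ≤ (J - 1) ^ 2 := Nat.pow_le_pow_left h4 2
      omega
    have h4 : J ^ 2 ≤ m := by
      rw [← h1]
      exact Nat.pow_le_pow_left h3 2
    have h5 : N % q ^ (m + 1) = N :=
      Nat.mod_eq_of_lt (hNq.trans_le (Nat.pow_le_pow_right (by omega) (by omega)))
    rw [h5] at h2
    exact h2 hN
  · exact (Nat.mod_lt _ (by omega)).ne

theorem main (h1 : TaskNotS) (h2 : TaskLamMono) (h3 : TaskBeatty) (h4 : TaskUpper) :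
    Pool.Agent.Q167.BD.TaskLower := by
  intro p q hA θ hθ0 hθ1 J hJ
  have hq : 2 ≤ q := hA.two
  have hpq : q < p := hA.lt
  have hqR : (2 : ℝ) ≤ q := by exact_mod_cast hq
  have hpR : (q : ℝ) < p := by exact_mod_cast hpq
  have hκ : 0 < kap p q := by
    unfold kap
    exact div_pos (by linarith) (by linarith)
  have hpK : 0 < (p : ℝ) ^ ((J - 1) ^ 2 + 1) := pow_pos (by linarith) _
  have hpJ : 0 < (p : ℝ) ^ (J ^ 2) := pow_pos (by linarith) _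
  refine ⟨kap p q * (p : ℝ) ^ (J ^ 2) / 2, ?_⟩
  have hpos : 0 < kap p q * (p : ℝ) ^ (J ^ 2) / 2 + (p : ℝ) ^ ((J - 1) ^ 2 + 1) := by positivity
  have hfin := (h4 p q hA θ hθ0 hθ1 0 (kap p q * (p : ℝ) ^ (J ^ 2) / 2) _ hpos).1
  have hB := (h3 θ hθ0 hθ1).2 (q ^ (J ^ 2))
  push_cast at hB
  refine hB.trans ?_
  have hsub : (Rt θ) ∩ Set.Iio (q ^ (J ^ 2)) ⊆ {N : ℕ | (val p (tau q (Rt θ)) N : ℝ) ∈
      Set.Ioo (kap p q * (p : ℝ) ^ (J ^ 2) / 2 -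
        (kap p q * (p : ℝ) ^ (J ^ 2) / 2 + (p : ℝ) ^ ((J - 1) ^ 2 + 1)))
        (kap p q * (p : ℝ) ^ (J ^ 2) / 2 +
        (kap p q * (p : ℝ) ^ (J ^ 2) / 2 + (p : ℝ) ^ ((J - 1) ^ 2 + 1)))} := by
    rintro N ⟨hN1, hN2⟩
    rw [Set.mem_Iio] at hN2
    have e1 := h1 p q hA (Rt θ) ((J - 1) ^ 2 + 1) N (fun m hm => tau_ne hq hN1 hN2 hm)
    have e2 := (h2 p q hA).2 (J ^ 2) N hN2
    have e3 : (val p (tau q (Rt θ)) N : ℝ) ≤ lam p q N + (p : ℝ) ^ ((J - 1) ^ 2 + 1) := by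
      exact_mod_cast e1.2
    have e4 : (0 : ℝ) ≤ val p (tau q (Rt θ)) N := Nat.cast_nonneg _
    rw [Set.mem_setOf_eq, Set.mem_Ioo]
    constructor
    · linarith
    · have e5 : kap p q * ((p : ℝ) ^ (J ^ 2) - 1) < kap p q * (p : ℝ) ^ (J ^ 2) :=
        mul_lt_mul_of_pos_left (by linarith) hκ
      linarith
  exact_mod_cast Set.ncard_le_ncard hsub hfin

end Pool.Agent.Q167.BD.TaskLower
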