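import Pool.Agent.Q167.BD.Stmts
set_option autoImplicit false

namespace Pool.Agent.Q167.BD.TaskNotS

open Finset Pool.Agent.Q167.BD

theorem lam_ext {p q : ℕ} (hq : 2 ≤ q) (N K : ℕ) (hK : N + 1 ≤ K) :
    ∑ i ∈ range K, (N / q ^ i % q) * p ^ i = lam p q N := by
  unfold lam
  symm
  apply sum_subset (range_subset_range.2 hK)
  intro i _ hi
  rw [mem_range, not_lt] at hi
  have h1 : i < q ^ i := Nat.lt_pow_self (by omega)
  rw [Nat.div_eq_of_lt (by omega), Nat.zero_mod, zero_mul]

theorem geo {p q : ℕ} (h : q < p) (k : ℕ) : q * ∑ i ∈ range k, p ^ i + 1 ≤ p ^ k := by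
  induction k with
  | zero => simp
  | succ k ih =>
    rw [sum_range_succ, mul_add, pow_succ]
    have h1 : (q + 1) * p ^ k ≤ p * p ^ k := Nat.mul_le_mul_right _ h
    nlinarith

theorem main : Pool.Agent.Q167.BD.TaskNotS := by
  intro p q hpq R k N hk
  have hq := hpq.two
  have hq0 : 0 < q := by omega
  have hN : N + 1 ≤ N ^ 2 + 1 := by nlinarith [Nat.zero_le N, Nat.le_self_pow (two_ne_zero) N]
  have hd : ∀ i, N / q ^ i % q < q := fun i => Nat.mod_lt _ hq0
  have hlow : ∀ i, N / q ^ i % q ≤ tau q R N i := by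
    intro i
    unfold tau
    split_ifs
    · exact (hd i).le
    · exact le_rfl
  have hup : ∀ i, tau q R N i ≤ N / q ^ i % q + if i < k then q else 0 := by
    intro i
    by_cases hi : i < k
    · rw [if_pos hi]
      unfold tau
      split_ifs <;> omega
    · rw [if_neg hi, add_zero]
      have h1 := hk i (not_lt.1 hi)
      unfold tau at h1 ⊢
      split_ifs at h1 ⊢ with h2
      · exact absurd rfl h1
      · exact le_rfl
  unfold val trunc
  rw [← lam_ext hq N (N ^ 2 + 1) hN]
  refine ⟨sum_le_sum fun i _ => Nat.mul_le_mul_right _ (hlow i), ?_⟩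
  calc ∑ i ∈ range (N ^ 2 + 1), tau q R N i * p ^ i
      ≤ ∑ i ∈ range (N ^ 2 + 1), (N / q ^ i % q * p ^ i + (if i < k then q * p ^ i else 0)) := by
        refine sum_le_sum fun i _ => (Nat.mul_le_mul_right _ (hup i)).trans (le_of_eq ?_)
        split_ifs <;> ring
    _ = ∑ i ∈ range (N ^ 2 + 1), N / q ^ i % q * p ^ i + ∑ i ∈ (range (N ^ 2 + 1)).filter (fun i => i < k), q * p ^ i := by
        rw [sum_add_distrib, sum_filter]
    _ ≤ ∑ i ∈ range (N ^ 2 + 1), N / q ^ i % q * p ^ i + ∑ i ∈ range k, q * p ^ i := by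
        refine Nat.add_le_add_left (sum_le_sum_of_subset fun i hi => ?_) _
        rw [mem_filter] at hi
        exact mem_range.2 hi.2
    _ ≤ _ := by
        have := geo hpq.lt k
        rw [mul_sum] at this
        omega

end Pool.Agent.Q167.BD.TaskNotS
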