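import Pool.Agent.Q167.BD.Stmts

set_option autoImplicit false

open MeasureTheory Filter Topology Finset
open scoped ENNReal

namespace Pool.Agent.Q167.BD.TaskPer

theorem main (hG : TaskGBasic) : Pool.Agent.Q167.BD.TaskPer := by
  intro p q hA n m z x hnm
  have hq : 1 ≤ q := le_trans (by norm_num) hA.two
  obtain ⟨-, -, hper, -⟩ := hG q hq
  unfold hh
  refine prod_congr rfl fun k hk => ?_
  have hkm : k ≤ m := by
    have := mem_range.1 hk
    omega
  have hq0 : (q : ℝ) ≠ 0 := by
    have : q ≠ 0 := by omega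
    exact_mod_cast this
  have hp0 : (p : ℝ) ≠ 0 := by
    have := hA.lt
    have : p ≠ 0 := by omega
    exact_mod_cast this
  have e : (x + q * (p : ℝ) ^ m * z) / (q * (p : ℝ) ^ k) =
      x / (q * (p : ℝ) ^ k) + (((p : ℤ) ^ (m - k) * z : ℤ) : ℝ) := by
    obtain ⟨d, rfl⟩ := Nat.exists_eq_add_of_le hkm
    rw [Nat.add_sub_cancel_left, pow_add]
    push_cast
    field_simp
  rw [e, hper]

end Pool.Agent.Q167.BD.TaskPer
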