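import Pool.Agent.Q167.BD.Stmts

set_option autoImplicit false

open Filter Topology Finset

namespace Pool.Agent.Q167.BD.TaskSpec

open Pool.Agent.Q167.BD

theorem main (h1 : TaskSumTrunc) (h2 : TaskTail) (h3 : TaskPer) (h4 : TaskLow) (h5 : TaskHlim)
    (h6 : TaskHprod) : Pool.Agent.Q167.BD.TaskSpec := by
  intro p q hpq H hH τ hτ x
  have hq : 1 < q := hpq.two
  have hhn : ∀ n y, 0 ≤ hh p q n y := fun n y => prod_nonneg fun k _ => by
    unfold G; positivity
  have hle : ∀ n y, H y ≤ hh p q n y := by
    intro n y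
    rw [h6 p q hpq H hH n y]
    exact mul_le_of_le_one_right (hhn n y) (hH.le_one _)
  have hval : ∀ n N, N < q ^ n →
      hh p q n (x + val p τ N) = hh p q n (x + trunc p τ n N) := by
    intro n N hN
    rcases h2 p q hpq τ hτ n N hN with h | ⟨j, hj, h⟩
    · rw [h]
    · rw [h]
      have := h3 p q hpq n j 1 (x + trunc p τ n N) (by omega)
      rw [← this]
      congr 1
      push_cast
      ring
  have hsum : ∀ n, ∑ N ∈ range (q ^ n), hh p q n (x + val p τ N) = 1 := by
    intro n
    rw [← h1 p q hpq τ hτ n x]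
    exact sum_congr rfl fun N hN => hval n N (mem_range.1 hN)
  have hlt : ∀ n : ℕ, n < q ^ n := fun n => Nat.lt_pow_self hq
  have hS : Summable fun N : ℕ => H (x + val p τ N) := by
    refine summable_of_sum_le (c := 1) (fun N => hH.nonneg _) fun u => ?_
    refine le_trans (sum_le_sum_of_subset_of_nonneg (t := range (q ^ (u.sup id)))
      (fun N hN => mem_range.2 (lt_of_le_of_lt (Finset.le_sup (f := id) hN) (hlt _)))
      fun _ _ _ => hH.nonneg _) ?_
    rw [← hsum (u.sup id)]
    exact sum_le_sum fun N _ => hle _ _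
  rw [← ENNReal.ofReal_tsum_of_nonneg (fun N => hH.nonneg _) hS]
  obtain ⟨c, hc, hlow⟩ := h4 p q hpq H hH τ hτ
  have key : ∑' N : ℕ, H (x + val p τ N) = 1 := by
    let f : ℕ → ℕ → ℝ := fun n N => if N < q ^ n then hh p q n (x + val p τ N) else 0
    have k1 : Tendsto (fun n => ∑' N, f n N) atTop (𝓝 (∑' N : ℕ, H (x + val p τ N))) := by
      refine tendsto_tsum_of_dominated_convergence (bound := fun N => c⁻¹ * H (x + val p τ N))
        (hS.mul_left _) ?_ ?_
      · intro N
        refine (h5 p q hpq H hH (x + val p τ N)).congr' ?_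
        filter_upwards [eventually_ge_atTop N] with n hn
        simp only [f]
        rw [if_pos (lt_of_le_of_lt hn (hlt n))]
      · filter_upwards [hlow x] with n hn N
        simp only [f]
        split_ifs with hN
        · rw [Real.norm_of_nonneg (hhn _ _)]
          have := hn N hN
          rw [inv_mul_eq_div, le_div_iff₀ hc]
          linarith
        · rw [norm_zero]
          exact mul_nonneg (inv_nonneg.2 hc.le) (hH.nonneg _)
    have k2 : ∀ n, ∑' N, f n N = 1 := by
      intro n
      rw [tsum_eq_sum (s := range (q ^ n)), ← hsum n]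
      · exact sum_congr rfl fun N hN => if_pos (mem_range.1 hN)
      · intro N hN
        exact if_neg (fun h => hN (mem_range.2 h))
    simp_rw [k2] at k1
    exact tendsto_nhds_unique k1 tendsto_const_nhds
  rw [key, ENNReal.ofReal_one]

end Pool.Agent.Q167.BD.TaskSpec
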