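import Pool.Agent.Q167.BD.Stmts
set_option autoImplicit false

namespace Pool.Agent.Q167.BD.TaskSumTrunc

open Finset

theorem sum_block {M : Type*} [AddCommMonoid M] (f : ℕ → M) (m : ℕ) :
    ∀ q : ℕ, ∑ N ∈ range (q * m), f N = ∑ a ∈ range q, ∑ b ∈ range m, f (a * m + b)
  | 0 => by simp
  | q + 1 => by
    rw [Nat.succ_mul, Finset.sum_range_add, sum_block f m q, Finset.sum_range_succ]

theorem main (h1 : TaskGSum) (h2 : TaskGBasic) (h3 : TaskPer) :
    Pool.Agent.Q167.BD.TaskSumTrunc := by
  intro p q hA τ hτ n
  have hq : 0 < q := by have := hA.two; omega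
  have hp : 0 < p := lt_trans hq hA.lt
  have hqR : (q : ℝ) ≠ 0 := by exact_mod_cast hq.ne'
  have hpR : (p : ℝ) ≠ 0 := by exact_mod_cast hp.ne'
  induction n with
  | zero => intro x; simp [hh]
  | succ n ih =>
    intro x
    have hblock : q ^ (n + 1) = q * q ^ n := by rw [pow_succ, mul_comm]
    rw [hblock, sum_block, Finset.sum_comm]
    have key : ∀ b ∈ range (q ^ n), ∀ a ∈ range q,
        hh p q (n + 1) (x + trunc p τ (n + 1) (a * q ^ n + b)) =
          hh p q n (x + trunc p τ n b) *
            G q ((x + trunc p τ n b) / (q * (p : ℝ) ^ n) + (a : ℝ) / q) := by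
      intro b hb a ha
      rw [Finset.mem_range] at hb ha
      have ht : trunc p τ n (a * q ^ n + b) = trunc p τ n b := by
        unfold trunc
        refine Finset.sum_congr rfl fun i hi => ?_
        rw [Finset.mem_range] at hi
        have h4 : (a * q ^ n + b) % q ^ (i + 1) = b % q ^ (i + 1) := by
          obtain ⟨k, hk⟩ : ∃ k, n = (i + 1) + k := ⟨n - (i + 1), by omega⟩
          have h5 : a * q ^ n + b = b + q ^ (i + 1) * (a * q ^ k) := by
            rw [hk, pow_add]; ring
          rw [h5, Nat.add_mul_mod_self_left]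
        rw [hτ.dep (a * q ^ n + b) i, h4, ← hτ.dep b i]
      have hdiv : (a * q ^ n + b) / q ^ n % q = a := by
        have h6 : 0 < q ^ n := pow_pos hq n
        rw [show a * q ^ n + b = b + q ^ n * a by ring, Nat.add_mul_div_left _ _ h6,
          Nat.div_eq_of_lt hb, zero_add, Nat.mod_eq_of_lt ha]
      obtain ⟨e, he⟩ : ∃ e : ℕ, τ (a * q ^ n + b) n = a + q * e := by
        have h7 := hτ.cong (a * q ^ n + b) n
        rw [hdiv] at h7
        exact ⟨τ (a * q ^ n + b) n / q, by
          have := Nat.mod_add_div (τ (a * q ^ n + b) n) q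
          omega⟩
      have ht' : (trunc p τ (n + 1) (a * q ^ n + b) : ℝ) =
          trunc p τ n b + ((a : ℝ) + q * e) * (p : ℝ) ^ n := by
        have h8 : trunc p τ (n + 1) (a * q ^ n + b) =
            trunc p τ n (a * q ^ n + b) + τ (a * q ^ n + b) n * p ^ n := by
          unfold trunc
          rw [Finset.sum_range_succ]
        rw [h8, ht, he]
        push_cast
        ring
      have hh1 : hh p q (n + 1) (x + trunc p τ (n + 1) (a * q ^ n + b)) =
          hh p q n (x + trunc p τ (n + 1) (a * q ^ n + b)) *
            G q ((x + trunc p τ (n + 1) (a * q ^ n + b)) / (q * (p : ℝ) ^ n)) := by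
        unfold hh
        rw [Finset.prod_range_succ]
      rw [hh1, ht']
      congr 1
      · cases n with
        | zero => simp [hh]
        | succ m =>
          obtain ⟨r, hr⟩ := hA.dvd
          have h9 := h3 p q hA (m + 1) m ((r * (a + q * e) : ℕ) : ℤ) (x + trunc p τ (m + 1) b)
            le_rfl
          rw [← h9]
          congr 1
          rw [pow_succ]
          have : (p : ℝ) = q * r := by exact_mod_cast hr
          push_cast
          rw [show (p : ℝ) ^ m * (p : ℝ) = (p : ℝ) ^ m * (q * r) by rw [← this]]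
          ring
      · have h10 := (h2 q hq).2.2.1 ((x + trunc p τ n b) / (q * (p : ℝ) ^ n) + (a : ℝ) / q) (e : ℤ)
        rw [← h10]
        congr 1
        have hpn : (p : ℝ) ^ n ≠ 0 := pow_ne_zero _ hpR
        push_cast
        field_simp
        ring
    rw [Finset.sum_congr rfl fun b hb => Finset.sum_congr rfl fun a ha => key b hb a ha]
    simp_rw [← Finset.mul_sum]
    rw [← ih x]
    refine Finset.sum_congr rfl fun b _ => ?_
    rw [h1 q hq, mul_one]

end Pool.Agent.Q167.BD.TaskSumTrunc
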