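import Pool.Agent.Q167.BD.Stmts

set_option autoImplicit false

open MeasureTheory Filter Topology Finset
open scoped ENNReal

namespace Pool.Agent.Q167.BD.TaskTail

theorem main : Pool.Agent.Q167.BD.TaskTail := by
  intro p q hA τ hτ n N hN
  have h2 := hA.two
  -- the labels above `n` are `0` or `q`
  have hlab : ∀ i, n ≤ i → τ N i = 0 ∨ τ N i = q := by
    intro i hi
    have h3 : N / q ^ i = 0 := by
      apply Nat.div_eq_of_lt
      exact hN.trans_le (Nat.pow_le_pow_right (by omega) hi)
    have h4 := hτ.cong N i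
    rw [h3, Nat.zero_mod] at h4
    have h5 := hτ.le N i
    rcases Nat.lt_or_ge (τ N i) q with h6 | h6
    · left
      rwa [Nat.mod_eq_of_lt h6] at h4
    · right; omega
  -- the value is a truncation at any high level
  have hval : ∀ M, N ^ 2 + 1 ≤ M → trunc p τ M N = val p τ N := by
    intro M hM
    induction M, hM using Nat.le_induction with
    | base => rfl
    | succ M hM ih =>
      rw [← ih]
      unfold trunc
      rw [sum_range_succ, hτ.fin N M (by omega), zero_mul, add_zero]
  set M := max (N ^ 2 + 1) n with hMdef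
  have hM1 : N ^ 2 + 1 ≤ M := le_max_left _ _
  have hM2 : n ≤ M := le_max_right _ _
  rw [← hval M hM1]
  have hsplit : trunc p τ M N = trunc p τ n N + ∑ i ∈ Ico n M, τ N i * p ^ i := by
    unfold trunc
    rw [range_eq_Ico, range_eq_Ico, sum_Ico_consecutive _ (Nat.zero_le _) hM2]
  rw [hsplit]
  by_cases hall : ∀ i, n ≤ i → τ N i = 0
  · left
    rw [sum_eq_zero fun i hi => by rw [hall i (mem_Ico.1 hi).1, zero_mul], add_zero]
  · right
    push Not at hall
    obtain ⟨j, hj, hj0⟩ := hall
    refine ⟨j, hj, ?_⟩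
    have hjM : j < M := by
      have : ¬ N ^ 2 < j := fun h => hj0 (hτ.fin N j h)
      omega
    congr 1
    rw [sum_eq_single_of_mem j (mem_Ico.2 ⟨hj, hjM⟩)]
    · rw [(hlab j hj).resolve_left hj0]
    · intro i hi hij
      by_contra hne
      have hi0 : τ N i ≠ 0 := fun h => hne (by rw [h, zero_mul])
      exact hij (hτ.far n N i j hN (mem_Ico.1 hi).1 hj hi0 hj0)

end Pool.Agent.Q167.BD.TaskTail
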