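import Pool.Agent.Q167.BD.Stmts

set_option autoImplicit false

open MeasureTheory Filter Topology Finset
open scoped ENNReal

namespace Pool.Agent.Q167.BD.TaskTruncLe

theorem main : Pool.Agent.Q167.BD.TaskTruncLe := by
  intro p q hA τ hτ n N
  have h2q : 2 * q ≤ p := by
    obtain ⟨c, rfl⟩ := hA.dvd
    have h1 := hA.lt
    have h2 := hA.two
    have hc : 2 ≤ c := by
      by_contra hcon
      have hc1 : c ≤ 1 := by omega
      have : q * c ≤ q * 1 := Nat.mul_le_mul_left q hc1
      omega
    calc 2 * q = q * 2 := by ring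
      _ ≤ q * c := Nat.mul_le_mul_left q hc
  have h2 := hA.two
  unfold trunc
  induction n with
  | zero => simp
  | succ n ih =>
    rw [sum_range_succ]
    have h3 : τ N n * p ^ n ≤ q * p ^ n := Nat.mul_le_mul_right _ (hτ.le N n)
    have h4 : (3 * q + 2) * p ^ n ≤ (2 * p) * p ^ n := Nat.mul_le_mul_right _ (by omega)
    have h5 : 2 * p ^ (n + 1) = (2 * p) * p ^ n := by rw [pow_succ]; ring
    rw [h5]
    nlinarith

end Pool.Agent.Q167.BD.TaskTruncLe
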