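import Pool.Agent.Q167.BD.Stmts
set_option autoImplicit false

open Filter Topology Finset

namespace Pool.Agent.Q167.BD.TaskUpper
open Pool.Agent.Q167.BD

/-- a set of natural numbers between `m` and `M` has at most `M - m + 1` elements -/
lemma ncard_le_Icc (S : Set ℕ) (m M : ℕ) (hmM : m ≤ M) (hS : S ⊆ Set.Icc m M) :
    (S.ncard : ℝ) ≤ (M : ℝ) - m + 1 := by
  have h1 : S.ncard ≤ M + 1 - m := by
    refine (Set.ncard_le_ncard hS (Set.finite_Icc m M)).trans ?_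
    rw [← Finset.coe_Icc, Set.ncard_coe_finset, Nat.card_Icc]
  have h2 : (S.ncard : ℝ) ≤ ((M + 1 - m : ℕ) : ℝ) := by exact_mod_cast h1
  rw [Nat.cast_sub (by omega)] at h2
  push_cast at h2
  linarith

/-- natural numbers in an open interval -/
lemma ncard_Ioo (a b : ℝ) (hab : a ≤ b) :
    {n : ℕ | a < (n : ℝ) ∧ (n : ℝ) < b}.Finite ∧
      ({n : ℕ | a < (n : ℝ) ∧ (n : ℝ) < b}.ncard : ℝ) ≤ b - a + 1 := by
  have hfin : {n : ℕ | a < (n : ℝ) ∧ (n : ℝ) < b}.Finite := by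
    refine (Set.finite_Iio ⌈b⌉₊).subset ?_
    intro n hn
    exact Nat.lt_ceil.2 hn.2
  refine ⟨hfin, ?_⟩
  rcases Set.eq_empty_or_nonempty {n : ℕ | a < (n : ℝ) ∧ (n : ℝ) < b} with he | hne
  · rw [he]
    simp
    linarith
  · obtain ⟨m, hm, hmin⟩ := Set.exists_min_image _ id hfin hne
    obtain ⟨M, hM, hmax⟩ := Set.exists_max_image _ id hfin hne
    have hmM : m ≤ M := hmax m hm
    have h := ncard_le_Icc {n : ℕ | a < (n : ℝ) ∧ (n : ℝ) < b} m M hmM
      (fun n hn => ⟨hmin n hn, hmax n hn⟩)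
    have h1 := hm.1
    have h2 := hM.2
    linarith

theorem main (hInj : TaskInjS) (hNot : TaskNotS) (hWin : TaskWindow) (hBe : TaskBeatty)
    (hMono : TaskLamMono) : Pool.Agent.Q167.BD.TaskUpper := by
  intro p q hpq θ h0 h1 k x h hh
  have hq2 := hpq.two
  have hlt := hpq.lt
  have hp0 : (0 : ℝ) < (p : ℝ) ^ k := by
    have : (0 : ℝ) < p := by exact_mod_cast (by omega : 0 < p)
    positivity
  have hpk : 0 < p ^ k := by exact_mod_cast hp0
  have hp1 : (p : ℝ) ^ k = ((p ^ k : ℕ) : ℝ) := by push_cast; rfl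
  have hmono := (hMono p q hpq).1
  set R := Rt θ with hR
  set A : Set ℕ := {N : ℕ | (val p (tau q R) N : ℝ) ∈ Set.Ioo (x - h) (x + h)} with hA
  set A1 : Set ℕ := {N | N ∈ A ∧ ∃ m, k ≤ m ∧ tau q R N m = q} with hA1
  set A2 : Set ℕ := {N | N ∈ A ∧ N ∉ R ∧ ∀ m, k ≤ m → tau q R N m ≠ q} with hA2
  set A3 : Set ℕ := {N | N ∈ A ∧ N ∈ R ∧ ∀ m, k ≤ m → tau q R N m ≠ q} with hA3
  have hsub : A ⊆ A1 ∪ (A2 ∪ A3) := by
    intro N hN
    by_cases hm : ∃ m, k ≤ m ∧ tau q R N m = q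
    · exact Or.inl ⟨hN, hm⟩
    · right
      push Not at hm
      by_cases hR' : N ∈ R
      · exact Or.inr ⟨hN, hR', hm⟩
      · exact Or.inl ⟨hN, hR', hm⟩
  -- first part
  have hB := ncard_Ioo ((x - h) / (p : ℝ) ^ k - 1) ((x + h) / (p : ℝ) ^ k) (by
    have : (x - h) / (p : ℝ) ^ k ≤ (x + h) / (p : ℝ) ^ k := by
      gcongr
      linarith
    linarith)
  have hmaps : ∀ N ∈ A1, val p (tau q R) N / p ^ k ∈
      {n : ℕ | (x - h) / (p : ℝ) ^ k - 1 < (n : ℝ) ∧ (n : ℝ) < (x + h) / (p : ℝ) ^ k} := by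
    intro N hN
    have hN' : (val p (tau q R) N : ℝ) ∈ Set.Ioo (x - h) (x + h) := hN.1
    constructor
    · have e1 : val p (tau q R) N < p ^ k * (val p (tau q R) N / p ^ k + 1) :=
        Nat.lt_mul_div_succ _ hpk
      have e2 : (val p (tau q R) N : ℝ) < (p : ℝ) ^ k * ((val p (tau q R) N / p ^ k : ℕ) + 1) := by
        exact_mod_cast e1
      have e3 : (x - h) / (p : ℝ) ^ k < ((val p (tau q R) N / p ^ k : ℕ) : ℝ) + 1 := by
        rw [div_lt_iff₀ hp0]
        have := hN'.1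
        linarith [mul_comm ((p : ℝ) ^ k) (((val p (tau q R) N / p ^ k : ℕ) : ℝ) + 1)]
      linarith
    · have e1 : val p (tau q R) N / p ^ k * p ^ k ≤ val p (tau q R) N := Nat.div_mul_le_self _ _
      have e2 : ((val p (tau q R) N / p ^ k : ℕ) : ℝ) * (p : ℝ) ^ k ≤ (val p (tau q R) N : ℝ) := by
        exact_mod_cast e1
      rw [lt_div_iff₀ hp0]
      exact lt_of_le_of_lt e2 hN'.2
  have hinj : Set.InjOn (fun N => val p (tau q R) N / p ^ k) A1 := by
    intro N₁ hN₁ N₂ _ he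
    obtain ⟨m, hkm, hm⟩ := hN₁.2
    exact hInj p q hpq R k N₁ N₂ m hkm hm he
  have hfin1 : A1.Finite := Set.Finite.of_injOn hmaps hinj hB.1
  have hcard1 : (A1.ncard : ℝ) ≤ 2 * h / (p : ℝ) ^ k + 2 := by
    have e1 := Set.ncard_le_ncard_of_injOn _ hmaps hinj hB.1
    have e2 : (A1.ncard : ℝ) ≤ _ := Nat.cast_le.2 e1
    have e3 : (x + h) / (p : ℝ) ^ k - ((x - h) / (p : ℝ) ^ k - 1) + 1 = 2 * h / (p : ℝ) ^ k + 2 := by
      field_simp
      ring
    linarith [hB.2]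
  -- second part
  have hsub2 : A2 ⊆ Set.Iio k := by
    intro N hN
    by_contra hk
    have hk' : k ≤ N := by simpa using hk
    have hNN : N ≤ N ^ 2 := Nat.le_self_pow two_ne_zero N
    refine hN.2.2 (N ^ 2) (hk'.trans hNN) ?_
    have hlt' : N < q ^ (N ^ 2 + 1) :=
      calc N < 2 ^ N := Nat.lt_two_pow_self
        _ ≤ q ^ N := Nat.pow_le_pow_left hq2 N
        _ ≤ q ^ (N ^ 2 + 1) := Nat.pow_le_pow_right (by omega) (by omega)
    unfold tau
    rw [Nat.mod_eq_of_lt hlt', if_pos ⟨rfl, hN.2.1⟩]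
  have hfin2 : A2.Finite := (Set.finite_Iio k).subset hsub2
  have hcard2 : (A2.ncard : ℝ) ≤ k := by
    have e1 : A2.ncard ≤ k := by
      refine (Set.ncard_le_ncard hsub2 (Set.finite_Iio k)).trans ?_
      rw [← Finset.coe_Iio, Set.ncard_coe_finset, Nat.card_Iio]
    exact_mod_cast e1
  -- third part
  have hlam : ∀ N ∈ A3, x - h - (p : ℝ) ^ k < (lam p q N : ℝ) ∧ (lam p q N : ℝ) < x + h := by
    intro N hN
    have hN' : (val p (tau q R) N : ℝ) ∈ Set.Ioo (x - h) (x + h) := hN.1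
    obtain ⟨e1, e2⟩ := hNot p q hpq R k N hN.2.2
    have e3 : (lam p q N : ℝ) ≤ (val p (tau q R) N : ℝ) := by exact_mod_cast e1
    have e4 : (val p (tau q R) N : ℝ) ≤ (lam p q N : ℝ) + (p : ℝ) ^ k := by exact_mod_cast e2
    exact ⟨by linarith [hN'.1], by linarith [hN'.2]⟩
  have hfin3 : A3.Finite := by
    refine (Set.finite_Iio ⌈x + h⌉₊).subset ?_
    intro N hN
    refine Nat.lt_ceil.2 (lt_of_le_of_lt ?_ (hlam N hN).2)
    exact_mod_cast hmono.le_apply
  have hpos : 0 ≤ θ * (1 + (2 * h + (p : ℝ) ^ k) / kap p q) ^ ss p q := by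
    have hk0 : 0 < kap p q := by
      unfold kap
      have a1 : (2 : ℝ) ≤ q := by exact_mod_cast hq2
      have a2 : (q : ℝ) < p := by exact_mod_cast hlt
      apply div_pos <;> linarith
    have : 0 ≤ 1 + (2 * h + (p : ℝ) ^ k) / kap p q := by positivity
    exact mul_nonneg h0 (Real.rpow_nonneg this _)
  have hcard3 : (A3.ncard : ℝ) ≤ θ * (1 + (2 * h + (p : ℝ) ^ k) / kap p q) ^ ss p q + 1 := by
    rcases Set.eq_empty_or_nonempty A3 with he | hne
    · rw [he]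
      simp only [Set.ncard_empty, Nat.cast_zero]
      linarith
    · obtain ⟨a, ha, hmin⟩ := Set.exists_min_image _ id hfin3 hne
      obtain ⟨b, hb, hmax⟩ := Set.exists_max_image _ id hfin3 hne
      have hab : a ≤ b := hmax a ha
      have e1 : A3.ncard ≤ (R ∩ Set.Icc a b).ncard := by
        refine Set.ncard_le_ncard ?_ ((Set.finite_Icc a b).inter_of_right _)
        intro N hN
        exact ⟨hN.2.1, hmin N hN, hmax N hN⟩
      have e2 : (A3.ncard : ℝ) ≤ ((R ∩ Set.Icc a b).ncard : ℝ) := Nat.cast_le.2 e1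
      have e3 := (hBe θ h0 h1).1 a b hab
      have e4 := hWin p q hpq a b (2 * h + (p : ℝ) ^ k) hab (by positivity)
        (by linarith [(hlam a ha).1, (hlam b hb).2])
      have e5 := mul_le_mul_of_nonneg_left e4 h0
      linarith
  have hfin : (A1 ∪ (A2 ∪ A3)).Finite := hfin1.union (hfin2.union hfin3)
  refine ⟨hfin.subset hsub, ?_⟩
  have c1 : A.ncard ≤ A1.ncard + (A2.ncard + A3.ncard) :=
    (Set.ncard_le_ncard hsub hfin).trans ((Set.ncard_union_le _ _).trans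
      (Nat.add_le_add_left (Set.ncard_union_le _ _) _))
  have c2 : (A.ncard : ℝ) ≤ A1.ncard + (A2.ncard + A3.ncard) := by exact_mod_cast c1
  linarith

end Pool.Agent.Q167.BD.TaskUpper
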