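import Pool.Agent.Q167.BD.Stmts

set_option autoImplicit false

open MeasureTheory Filter Topology Finset

namespace Pool.Agent.Q167.BD.TaskWindow

theorem main (h1 : TaskGap) : Pool.Agent.Q167.BD.TaskWindow := by
  intro p q hpq a b w hab hw hlam
  have hq : (2 : ℝ) ≤ q := by exact_mod_cast hpq.two
  have hp : (q : ℝ) + 1 ≤ p := by exact_mod_cast hpq.lt
  have hkap : 0 < kap p q := by
    unfold kap
    exact div_pos (by linarith) (by linarith)
  have hg := (h1 p q hpq a b hab).trans hlam
  have hab' : (a : ℝ) ≤ b := by exact_mod_cast hab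
  have hM : (1 : ℝ) ≤ (b : ℝ) - a + 1 := by linarith
  have h2 : ((b : ℝ) - a + 1) ^ bet p q ≤ 1 + w / kap p q := by
    have h3 : ((b : ℝ) - a + 1) ^ bet p q - 1 ≤ w / kap p q := by
      rw [le_div_iff₀ hkap]
      linarith
    linarith
  have hlq : 0 < Real.log q := Real.log_pos (by linarith)
  have hlp : 0 < Real.log p := Real.log_pos (by linarith)
  have hmul : bet p q * ss p q = 1 := by
    unfold bet ss
    field_simp
  have hs : 0 ≤ ss p q := (div_pos hlq hlp).le
  calc (b : ℝ) - a + 1 = (((b : ℝ) - a + 1) ^ bet p q) ^ ss p q := by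
        rw [← Real.rpow_mul (by linarith), hmul, Real.rpow_one]
    _ ≤ (1 + w / kap p q) ^ ss p q :=
        Real.rpow_le_rpow (Real.rpow_nonneg (by linarith) _) h2 hs

end Pool.Agent.Q167.BD.TaskWindow
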