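import Mathlib
import Pool.Agent.Q167.BD.Asm
import Pool.Agent.Q167.BD.TaskGSum
import Pool.Agent.Q167.BD.TaskGBasic
import Pool.Agent.Q167.BD.TaskChar
import Pool.Agent.Q167.BD.TaskHprod
import Pool.Agent.Q167.BD.TaskHlim
import Pool.Agent.Q167.BD.TaskPer
import Pool.Agent.Q167.BD.TaskHlow
import Pool.Agent.Q167.BD.TaskSumTrunc
import Pool.Agent.Q167.BD.TaskTail
import Pool.Agent.Q167.BD.TaskTruncLe
import Pool.Agent.Q167.BD.TaskLow
import Pool.Agent.Q167.BD.TaskSpec
import Pool.Agent.Q167.BD.TaskBasis
import Pool.Agent.Q167.BD.TaskLamRec
import Pool.Agent.Q167.BD.TaskAna
import Pool.Agent.Q167.BD.TaskGap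
import Pool.Agent.Q167.BD.TaskWindow
import Pool.Agent.Q167.BD.TaskLamMono
import Pool.Agent.Q167.BD.TaskBeatty
import Pool.Agent.Q167.BD.TaskLabels
import Pool.Agent.Q167.BD.TaskDigit
import Pool.Agent.Q167.BD.TaskInjS
import Pool.Agent.Q167.BD.TaskNotS
import Pool.Agent.Q167.BD.TaskUpper
import Pool.Agent.Q167.BD.TaskLower
import Pool.Agent.Q167.BD.TaskLimUp
import Pool.Agent.Q167.BD.TaskLimLow
import Pool.Agent.Q167.BD.TaskDens
set_option autoImplicit false

/-! # MP_5269d5_an: all tasks together -/

open MeasureTheory Filter Topology Finset
open scoped ENNReal

namespace Pool.Agent.Q167.BD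

theorem answer : Main := by
  have hGSum : TaskGSum := by
    first
    | exact TaskGSum.main
    | (apply TaskGSum.main <;> assumption)
  have hGBasic : TaskGBasic := by
    first
    | exact TaskGBasic.main
    | (apply TaskGBasic.main <;> assumption)
  have hChar : TaskChar := by
    first
    | exact TaskChar.main
    | (apply TaskChar.main <;> assumption)
  have hHprod : TaskHprod := by
    first
    | exact TaskHprod.main
    | (apply TaskHprod.main <;> assumption)
  have hHlim : TaskHlim := by
    first
    | exact TaskHlim.main
    | (apply TaskHlim.main <;> assumption)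
  have hPer : TaskPer := by
    first
    | exact TaskPer.main
    | (apply TaskPer.main <;> assumption)
  have hHlow : TaskHlow := by
    first
    | exact TaskHlow.main
    | (apply TaskHlow.main <;> assumption)
  have hSumTrunc : TaskSumTrunc := by
    first
    | exact TaskSumTrunc.main
    | (apply TaskSumTrunc.main <;> assumption)
  have hTail : TaskTail := by
    first
    | exact TaskTail.main
    | (apply TaskTail.main <;> assumption)
  have hTruncLe : TaskTruncLe := by
    first
    | exact TaskTruncLe.main
    | (apply TaskTruncLe.main <;> assumption)
  have hLow : TaskLow := by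
    first
    | exact TaskLow.main
    | (apply TaskLow.main <;> assumption)
  have hSpec : TaskSpec := by
    first
    | exact TaskSpec.main
    | (apply TaskSpec.main <;> assumption)
  have hBasis : TaskBasis := by
    first
    | exact TaskBasis.main
    | (apply TaskBasis.main <;> assumption)
  have hLamRec : TaskLamRec := by
    first
    | exact TaskLamRec.main
    | (apply TaskLamRec.main <;> assumption)
  have hAna : TaskAna := by
    first
    | exact TaskAna.main
    | (apply TaskAna.main <;> assumption)
  have hGap : TaskGap := by
    first
    | exact TaskGap.main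
    | (apply TaskGap.main <;> assumption)
  have hWindow : TaskWindow := by
    first
    | exact TaskWindow.main
    | (apply TaskWindow.main <;> assumption)
  have hLamMono : TaskLamMono := by
    first
    | exact TaskLamMono.main
    | (apply TaskLamMono.main <;> assumption)
  have hBeatty : TaskBeatty := by
    first
    | exact TaskBeatty.main
    | (apply TaskBeatty.main <;> assumption)
  have hLabels : TaskLabels := by
    first
    | exact TaskLabels.main
    | (apply TaskLabels.main <;> assumption)
  have hDigit : TaskDigit := by
    first
    | exact TaskDigit.main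
    | (apply TaskDigit.main <;> assumption)
  have hInjS : TaskInjS := by
    first
    | exact TaskInjS.main
    | (apply TaskInjS.main <;> assumption)
  have hNotS : TaskNotS := by
    first
    | exact TaskNotS.main
    | (apply TaskNotS.main <;> assumption)
  have hUpper : TaskUpper := by
    first
    | exact TaskUpper.main
    | (apply TaskUpper.main <;> assumption)
  have hLower : TaskLower := by
    first
    | exact TaskLower.main
    | (apply TaskLower.main <;> assumption)
  have hLimUp : TaskLimUp := by
    first
    | exact TaskLimUp.main
    | (apply TaskLimUp.main <;> assumption)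
  have hLimLow : TaskLimLow := by
    first
    | exact TaskLimLow.main
    | (apply TaskLimLow.main <;> assumption)
  have hDens : TaskDens := by
    first
    | exact TaskDens.main
    | (apply TaskDens.main <;> assumption)
  exact main_of hChar hSpec hBasis hLabels hUpper hLower hLimUp hLimLow hDens

end Pool.Agent.Q167.BD
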