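import Pool.Agent.Q167.BD.Stmts

set_option autoImplicit false

namespace Pool.Agent.Q167.BD.TaskGap

open Pool.Agent.Q167.BD

lemma q_rpow {p q : ℕ} (h : Adm p q) : (q : ℝ) ^ bet p q = p := by
  have h2 := h.two
  have h3 := h.lt
  have hq : (1 : ℝ) < q := by exact_mod_cast h2
  have hp : (0 : ℝ) < p := by exact_mod_cast (by omega : 0 < p)
  have hl : Real.log q ≠ 0 := (Real.log_pos hq).ne'
  unfold bet
  rw [Real.rpow_def_of_pos (by linarith), mul_div_cancel₀ _ hl, Real.exp_log hp]

theorem main (h1 : TaskLamRec) (h2 : TaskAna) : Pool.Agent.Q167.BD.TaskGap := by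
  intro p q h a b hab
  have hq2 := h.two
  have hqp := h.lt
  have hp1 : (0 : ℝ) < (p : ℝ) - 1 := by
    have : (1 : ℝ) < p := by exact_mod_cast (by omega : 1 < p)
    linarith
  have hq0 : (0 : ℝ) < q := by exact_mod_cast (by omega : 0 < q)
  have hkap : kap p q * ((p : ℝ) - 1) = (q : ℝ) - 1 := by
    unfold kap
    exact div_mul_cancel₀ _ hp1.ne'
  have hkap0 : 0 ≤ kap p q := by
    unfold kap
    have : (1 : ℝ) ≤ q := by exact_mod_cast (by omega : 1 ≤ q)
    exact div_nonneg (by linarith) hp1.le
  induction b using Nat.strong_induction_on generalizing a with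
  | _ b ih =>
    rcases Nat.eq_zero_or_pos b with hb | hb
    · have ha : a = 0 := by omega
      subst hb
      subst ha
      simp
    · have hB : b / q < b := Nat.div_lt_self hb (by omega)
      have hAB : a / q ≤ b / q := Nat.div_le_div_right hab
      have ih1 := ih (b / q) hB (a / q) hAB
      have ea : q * (a / q) + a % q = a := Nat.div_add_mod a q
      have eb : q * (b / q) + b % q = b := Nat.div_add_mod b q
      have hc : a % q < q := Nat.mod_lt _ (by omega)
      have hc' : b % q < q := Nat.mod_lt _ (by omega)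
      have la := h1 p q h (a / q) (a % q) hc
      have lb := h1 p q h (b / q) (b % q) hc'
      rw [ea] at la
      rw [eb] at lb
      have h3 := h2 p q h (b / q - a / q + 1) (q - 1 + a % q - b % q) (by omega) (by omega) (by
        intro h4
        have h5 : a / q = b / q := by omega
        rw [h5] at ea
        have h6 : q * (b / q) + a % q ≤ q * (b / q) + b % q := by rw [ea, eb]; exact hab
        omega)
      have em : (((b / q - a / q + 1 : ℕ)) : ℝ) = ((b / q : ℕ) : ℝ) - ((a / q : ℕ) : ℝ) + 1 := by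
        rw [Nat.cast_add, Nat.cast_sub hAB, Nat.cast_one]
      have ed : (((q - 1 + a % q - b % q : ℕ)) : ℝ) = (q : ℝ) - 1 + ((a % q : ℕ) : ℝ) - ((b % q : ℕ) : ℝ) := by
        rw [Nat.cast_sub (by omega), Nat.cast_add, Nat.cast_sub (by omega), Nat.cast_one]
      have la' : (lam p q a : ℝ) = p * lam p q (a / q) + ((a % q : ℕ) : ℝ) := by
        rw [la]; push_cast; ring
      have lb' : (lam p q b : ℝ) = p * lam p q (b / q) + ((b % q : ℕ) : ℝ) := by
        rw [lb]; push_cast; ring
      have ea' : (a : ℝ) = q * ((a / q : ℕ) : ℝ) + ((a % q : ℕ) : ℝ) := by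
        exact_mod_cast ea.symm
      have eb' : (b : ℝ) = q * ((b / q : ℕ) : ℝ) + ((b % q : ℕ) : ℝ) := by
        exact_mod_cast eb.symm
      set A : ℝ := ((a / q : ℕ) : ℝ) with hA
      set B : ℝ := ((b / q : ℕ) : ℝ) with hB'
      set c : ℝ := ((a % q : ℕ) : ℝ) with hcd
      set c' : ℝ := ((b % q : ℕ) : ℝ) with hcd'
      rw [em, ed] at h3
      have hab' : (a : ℝ) ≤ b := by exact_mod_cast hab
      have e1 : (b : ℝ) - a + 1 = q * ((B - A + 1) - ((q : ℝ) - 1 + c - c') / q) := by
        rw [ea', eb']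
        field_simp
        ring
      have hy : 0 ≤ (B - A + 1) - ((q : ℝ) - 1 + c - c') / q := by
        by_contra h5
        push Not at h5
        have h6 : q * ((B - A + 1) - ((q : ℝ) - 1 + c - c') / q) < 0 := mul_neg_of_pos_of_neg hq0 h5
        rw [← e1] at h6
        linarith
      have e2 : ((b : ℝ) - a + 1) ^ bet p q =
          p * ((B - A + 1) - ((q : ℝ) - 1 + c - c') / q) ^ bet p q := by
        rw [e1, Real.mul_rpow hq0.le hy, q_rpow h]
      rw [e2, la', lb']
      have hp0 : (0 : ℝ) ≤ p := Nat.cast_nonneg p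
      have h7 := mul_le_mul_of_nonneg_left ih1 hp0
      set Y := ((B - A + 1) - ((q : ℝ) - 1 + c - c') / q) ^ bet p q
      set M := (B - A + 1) ^ bet p q
      nlinarith [h3, h7, hkap]

end Pool.Agent.Q167.BD.TaskGap
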